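import Mathlib

/-! Straight-line drawings, right-angle crossings, and their stability. -/

namespace Pool.Agent.LibRac44

open Set Filter Topology

/-- scalar product in the plane -/
def dot (x y : ℝ × ℝ) : ℝ := x.1 * y.1 + x.2 * y.2

/-- determinant of two vectors in the plane -/
def det2 (x y : ℝ × ℝ) : ℝ := x.1 * y.2 - x.2 * y.1

variable {V : Type*} (G : SimpleGraph V)

/-- `p` is a straight-line drawing of `G` -/
structure IsDrawing (p : V → ℝ × ℝ) : Prop where
  inj : Function.Injective p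
  vertex : ∀ u v w, G.Adj u v → w ≠ u → w ≠ v → p w ∉ segment ℝ (p u) (p v)
  meet : ∀ a b c d, G.Adj a b → G.Adj c d → s(a, b) ≠ s(c, d) →
    (segment ℝ (p a) (p b) ∩ segment ℝ (p c) (p d)).Subsingleton

/-- the point `x` is a crossing of the edges `ab` and `cd` -/
def CrossAt (p : V → ℝ × ℝ) (a b c d : V) (x : ℝ × ℝ) : Prop :=
  G.Adj a b ∧ G.Adj c d ∧ s(a, b) ≠ s(c, d) ∧
    x ∈ openSegment ℝ (p a) (p b) ∧ x ∈ openSegment ℝ (p c) (p d)

/-- the edges `ab` and `cd` cross -/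
def Cross (p : V → ℝ × ℝ) (a b c d : V) : Prop := ∃ x, CrossAt G p a b c d x

/-- `p` is a straight-line drawing of `G` that is a RAC-drawing and 1-planar -/
structure IsRac1 (p : V → ℝ × ℝ) : Prop where
  draw : IsDrawing G p
  right : ∀ a b c d, Cross G p a b c d → dot (p a - p b) (p c - p d) = 0
  one : ∀ a b c d c' d' x x', CrossAt G p a b c d x → CrossAt G p a b c' d' x' → x = x'

variable {G}

lemma mem_seg {A B x : ℝ × ℝ} : x ∈ segment ℝ A B ↔ ∃ t : ℝ, 0 ≤ t ∧ t ≤ 1 ∧ A + t • (B - A) = x := by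
  rw [segment_eq_image']
  constructor
  · rintro ⟨t, ⟨h0, h1⟩, rfl⟩
    exact ⟨t, h0, h1, rfl⟩
  · rintro ⟨t, h0, h1, rfl⟩
    exact ⟨t, ⟨h0, h1⟩, rfl⟩

lemma mem_oseg {A B x : ℝ × ℝ} : x ∈ openSegment ℝ A B ↔ ∃ t : ℝ, 0 < t ∧ t < 1 ∧ A + t • (B - A) = x := by
  rw [openSegment_eq_image']
  constructor
  · rintro ⟨t, ⟨h0, h1⟩, rfl⟩
    exact ⟨t, h0, h1, rfl⟩
  · rintro ⟨t, h0, h1, rfl⟩
    exact ⟨t, ⟨h0, h1⟩, rfl⟩

/-- two segments with a common endpoint -/
lemma seg_share {A B D x : ℝ × ℝ} (h1 : x ∈ segment ℝ A B) (h2 : x ∈ segment ℝ A D) (hx : x ≠ A) :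
    B ∈ segment ℝ A D ∨ D ∈ segment ℝ A B := by
  obtain ⟨s, hs0, hs1, hs⟩ := mem_seg.1 h1
  obtain ⟨t, ht0, ht1, ht⟩ := mem_seg.1 h2
  have hsp : 0 < s := by
    rcases hs0.lt_or_eq with h | h
    · exact h
    · exfalso
      apply hx
      rw [← hs, ← h, zero_smul, add_zero]
  have htp : 0 < t := by
    rcases ht0.lt_or_eq with h | h
    · exact h
    · exfalso
      apply hx
      rw [← ht, ← h, zero_smul, add_zero]
  have he : s • (B - A) = t • (D - A) := by
    have := hs.trans ht.symm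
    exact add_left_cancel this
  rcases le_total t s with h | h
  · left
    rw [mem_seg]
    refine ⟨t / s, by positivity, by rw [div_le_one hsp]; exact h, ?_⟩
    have : B - A = (t / s) • (D - A) := by
      rw [div_eq_inv_mul, mul_smul, ← he, smul_smul, inv_mul_cancel₀ hsp.ne', one_smul]
    rw [← this]
    abel
  · right
    rw [mem_seg]
    refine ⟨s / t, by positivity, by rw [div_le_one htp]; exact h, ?_⟩
    have : D - A = (s / t) • (B - A) := by
      rw [div_eq_inv_mul, mul_smul, he, smul_smul, inv_mul_cancel₀ htp.ne', one_smul]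
    rw [← this]
    abel

lemma dot_self_eq_zero {x : ℝ × ℝ} (h : dot x x = 0) : x = 0 := by
  unfold dot at h
  have h1 : x.1 = 0 := by nlinarith [mul_self_nonneg x.1, mul_self_nonneg x.2]
  have h2 : x.2 = 0 := by nlinarith [mul_self_nonneg x.1, mul_self_nonneg x.2]
  exact Prod.ext h1 h2

/-- perpendicular segments meet in at most one point -/
lemma perp_sub {A B C D : ℝ × ℝ} (h : dot (A - B) (C - D) = 0) :
    (segment ℝ A B ∩ segment ℝ C D).Subsingleton := by
  rintro x ⟨h1, h2⟩ y ⟨h3, h4⟩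
  obtain ⟨s, -, -, rfl⟩ := mem_seg.1 h1
  obtain ⟨s', -, -, rfl⟩ := mem_seg.1 h3
  obtain ⟨t, -, -, ht⟩ := mem_seg.1 h2
  obtain ⟨t', -, -, ht'⟩ := mem_seg.1 h4
  have e1 : (A + s • (B - A)) - (A + s' • (B - A)) = (s - s') • (B - A) := by
    rw [sub_smul]; abel
  have e2 : (A + s • (B - A)) - (A + s' • (B - A)) = (t - t') • (D - C) := by
    rw [← ht, ← ht', sub_smul]; abel
  have e3 : dot ((A + s • (B - A)) - (A + s' • (B - A))) ((A + s • (B - A)) - (A + s' • (B - A))) = 0 := by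
    nth_rewrite 1 [e1]
    rw [e2]
    unfold dot at h ⊢
    simp only [Prod.fst_sub, Prod.snd_sub, Prod.smul_fst, Prod.smul_snd, smul_eq_mul] at h ⊢
    linear_combination (s - s') * (t - t') * h
  exact sub_eq_zero.1 (dot_self_eq_zero e3)

lemma oseg_ne_left {A B x : ℝ × ℝ} (hAB : A ≠ B) (hx : x ∈ openSegment ℝ A B) : x ≠ A := by
  obtain ⟨t, h0, h1, rfl⟩ := mem_oseg.1 hx
  intro h
  have h2 : t • (B - A) = 0 := by
    have : A + t • (B - A) = A + 0 := by rw [h, add_zero]
    exact add_left_cancel this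
  rcases smul_eq_zero.1 h2 with h3 | h3
  · exact h0.ne' h3
  · exact hAB (sub_eq_zero.1 h3).symm

lemma oseg_ne_right {A B x : ℝ × ℝ} (hAB : A ≠ B) (hx : x ∈ openSegment ℝ A B) : x ≠ B := by
  rw [openSegment_symm] at hx
  exact oseg_ne_left hAB.symm hx

/-- two parallel segments with a common interior point meet in more than one point -/
lemma par_overlap {C D C' D' n x : ℝ × ℝ} (hn : n ≠ 0) (hC : C ≠ D) (hC' : C' ≠ D')
    (h1 : dot n (C - D) = 0) (h2 : dot n (C' - D') = 0)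
    (hx : x ∈ openSegment ℝ C D) (hx' : x ∈ openSegment ℝ C' D') :
    ¬ (segment ℝ C D ∩ segment ℝ C' D').Subsingleton := by
  obtain ⟨s, hs0, hs1, hs⟩ := mem_oseg.1 hx
  obtain ⟨t, ht0, ht1, ht⟩ := mem_oseg.1 hx'
  set w : ℝ × ℝ := (-n.2, n.1) with hw
  have hnn : 0 < n.1 * n.1 + n.2 * n.2 := by
    rcases (add_nonneg (mul_self_nonneg n.1) (mul_self_nonneg n.2)).lt_or_eq with h | h
    · exact h
    · exact absurd (dot_self_eq_zero (x := n) h.symm) hn
  have key : ∀ E F : ℝ × ℝ, E ≠ F → dot n (E - F) = 0 → ∃ k : ℝ, k ≠ 0 ∧ F - E = k • w := by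
    intro E F hE h
    refine ⟨((F.2 - E.2) * n.1 - (F.1 - E.1) * n.2) / (n.1 * n.1 + n.2 * n.2), ?_, ?_⟩
    · intro h0
      rw [div_eq_zero_iff] at h0
      rcases h0 with h0 | h0
      · apply hE
        unfold dot at h
        simp only [Prod.fst_sub, Prod.snd_sub] at h
        have e1 : (F.1 - E.1) * (n.1 * n.1 + n.2 * n.2) = 0 := by linear_combination (-n.1) * h - n.2 * h0
        have e2 : (F.2 - E.2) * (n.1 * n.1 + n.2 * n.2) = 0 := by linear_combination (-n.2) * h + n.1 * h0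
        have f1 : F.1 - E.1 = 0 := by
          rcases mul_eq_zero.1 e1 with h | h
          · exact h
          · exact absurd h hnn.ne'
        have f2 : F.2 - E.2 = 0 := by
          rcases mul_eq_zero.1 e2 with h | h
          · exact h
          · exact absurd h hnn.ne'
        exact Prod.ext (by linarith) (by linarith)
      · exact absurd h0 hnn.ne'
    · unfold dot at h
      simp only [Prod.fst_sub, Prod.snd_sub] at h
      refine Prod.ext ?_ ?_
      · simp only [Prod.fst_sub, Prod.smul_fst, hw, smul_eq_mul]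
        rw [div_mul_eq_mul_div, eq_div_iff hnn.ne']
        linear_combination (-n.1) * h
      · simp only [Prod.snd_sub, Prod.smul_snd, hw, smul_eq_mul]
        rw [div_mul_eq_mul_div, eq_div_iff hnn.ne']
        linear_combination (-n.2) * h
  obtain ⟨k, hk, ek⟩ := key C D hC h1
  obtain ⟨l, hl, el⟩ := key C' D' hC' h2
  have hw0 : w ≠ 0 := by
    intro h
    rw [h, smul_zero] at ek
    exact hC (sub_eq_zero.1 ek).symm
  intro hsub
  -- a small shift along `w`
  obtain ⟨δ, hδ, h3, h4⟩ : ∃ δ : ℝ, 0 < δ ∧ δ ≤ |k| * min s (1 - s) ∧ δ ≤ |l| * min t (1 - t) := by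
    have hk' : 0 < |k| * min s (1 - s) := mul_pos (abs_pos.2 hk) (lt_min hs0 (by linarith))
    have hl' : 0 < |l| * min t (1 - t) := mul_pos (abs_pos.2 hl) (lt_min ht0 (by linarith))
    exact ⟨min (|k| * min s (1 - s)) (|l| * min t (1 - t)), lt_min hk' hl', min_le_left _ _, min_le_right _ _⟩
  have shift : ∀ (E F : ℝ × ℝ) (m r : ℝ), m ≠ 0 → F - E = m • w → E + r • (F - E) = x → 0 < r → r < 1 →
      δ ≤ |m| * min r (1 - r) → x + δ • w ∈ segment ℝ E F := by
    intro E F m r hm hEF hr hr0 hr1 hδ'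
    rw [mem_seg]
    have habs : |δ / m| ≤ min r (1 - r) := by
      rw [abs_div, abs_of_pos hδ, div_le_iff₀ (abs_pos.2 hm), mul_comm]
      exact hδ'
    have h5 := abs_le.1 (habs.trans (min_le_left _ _))
    have h6 := abs_le.1 (habs.trans (min_le_right _ _))
    refine ⟨r + δ / m, by linarith [h5.1], by linarith [h6.2], ?_⟩
    rw [add_smul, ← add_assoc, hr, hEF, smul_smul, div_mul_cancel₀ _ hm]
  have e1 : x ∈ segment ℝ C D ∩ segment ℝ C' D' :=
    ⟨openSegment_subset_segment ℝ _ _ hx, openSegment_subset_segment ℝ _ _ hx'⟩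
  have e2 : x + δ • w ∈ segment ℝ C D ∩ segment ℝ C' D' :=
    ⟨shift C D k s hk ek hs hs0 hs1 h3, shift C' D' l t hl el ht ht0 ht1 h4⟩
  have e3 := hsub e2 e1
  have e4 : δ • w = 0 := by
    have : x + δ • w = x + 0 := by rw [e3, add_zero]
    exact add_left_cancel this
  rcases smul_eq_zero.1 e4 with h | h
  · exact hδ.ne' h
  · exact hw0 h

/-- disjoint segments stay disjoint -/
lemma seg_stable {A B C D : ℝ × ℝ} (h : Disjoint (segment ℝ A B) (segment ℝ C D)) :
    ∃ ε > 0, ∀ A' B' C' D' : ℝ × ℝ, dist A' A < ε → dist B' B < ε → dist C' C < ε → dist D' D < ε →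
      Disjoint (segment ℝ A' B') (segment ℝ C' D') := by
  have hc : ∀ X Y : ℝ × ℝ, IsCompact (segment ℝ X Y) := by
    intro X Y
    rw [segment_eq_image']
    exact isCompact_Icc.image (by fun_prop)
  obtain ⟨δ, hδ, hd⟩ := h.exists_thickenings (hc A B) (hc C D).isClosed
  have key : ∀ X Y X' Y' : ℝ × ℝ, dist X' X < δ → dist Y' Y < δ →
      segment ℝ X' Y' ⊆ Metric.thickening δ (segment ℝ X Y) := by
    intro X Y X' Y' h1 h2 z hz
    obtain ⟨a, b, ha, hb, hab, rfl⟩ := hz
    rw [Metric.mem_thickening_iff]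
    refine ⟨a • X + b • Y, ⟨a, b, ha, hb, hab, rfl⟩, ?_⟩
    have h3 : dist (a • X' + b • Y') (a • X + b • Y) ≤ a * dist X' X + b * dist Y' Y := by
      refine (dist_add_add_le _ _ _ _).trans ?_
      rw [dist_smul₀, dist_smul₀, Real.norm_of_nonneg ha, Real.norm_of_nonneg hb]
    have h4 : a * dist X' X + b * dist Y' Y < δ := by
      rcases ha.lt_or_eq with h | h
      · have : a * dist X' X < a * δ := mul_lt_mul_of_pos_left h1 h
        have h5 : b * dist Y' Y ≤ b * δ := mul_le_mul_of_nonneg_left h2.le hb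
        nlinarith
      · have hb1 : b = 1 := by linarith
        rw [← h, hb1]
        linarith
    exact h3.trans_lt h4
  exact ⟨δ, hδ, fun A' B' C' D' h1 h2 h3 h4 => hd.mono (key _ _ _ _ h1 h2) (key _ _ _ _ h3 h4)⟩

end Pool.Agent.LibRac44
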