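import Pool.Agent.LibRac44.Wind

/-! Two-coloured crossing structures: no further hypothesis is needed. -/

namespace Pool.Agent.LibRac44

open Set Filter Topology

section
variable {ι V : Type*} [Fintype ι] [Fintype V] [DecidableEq V]

/-- the intersection number of two plane cycles is zero -/
theorem inter_zero (p : V → ℝ × ℝ) (a c b d : ι → V) (f g : ι → ℝ)
    (hf : ∀ v, ∑ i, f i * ((if c i = v then 1 else 0) - (if a i = v then 1 else 0)) = 0)
    (hg : ∀ v, ∑ i, g i * ((if d i = v then 1 else 0) - (if b i = v then 1 else 0)) = 0)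
    (hdis : ∀ i j, i ≠ j → Disjoint (segment ℝ (p (a i)) (p (c i))) (segment ℝ (p (b j)) (p (d j))))
    (ha : ∀ j, p (a j) ∉ segment ℝ (p (b j)) (p (d j))) (hc : ∀ j, p (c j) ∉ segment ℝ (p (b j)) (p (d j)))
    (hac : ∀ j, p (a j) ≠ p (c j))
    (hx : ∀ j, ∃ x, x ∈ openSegment ℝ (p (a j)) (p (c j)) ∧ x ∈ openSegment ℝ (p (b j)) (p (d j)))
    (hperp : ∀ j, dot (p (c j) - p (a j)) (p (d j) - p (b j)) = 0)
    (hdet : ∀ j, 0 < det2 (p (c j) - p (a j)) (p (d j) - p (b j))) : ∑ j, f j * g j = 0 := by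
  have h1 := cons hg (fun v => wind p a c f (p v))
  have h2 : ∀ j, wind p a c f (p (d j)) - wind p a c f (p (b j)) = 2 * Real.pi * Complex.I * f j := by
    intro j
    obtain ⟨x, hx1, hx2⟩ := hx j
    exact jump p a c f hf (p (b j)) (p (d j)) j (fun i hij => hdis i j hij) (ha j) (hc j) (hac j) hx1 hx2
      (hperp j) (hdet j)
  have h3 : (2 * Real.pi * Complex.I) * ((∑ j, f j * g j : ℝ) : ℂ) = 0 := by
    rw [← h1, Complex.ofReal_sum, Finset.mul_sum]
    refine Finset.sum_congr rfl (fun j _ => ?_)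
    show _ = (g j : ℂ) * (wind p a c f (p (d j)) - wind p a c f (p (b j)))
    rw [h2 j, Complex.ofReal_mul]
    ring
  have h4 : (2 * Real.pi * Complex.I : ℂ) ≠ 0 := by
    simp [Real.pi_ne_zero, Complex.I_ne_zero]
  rcases mul_eq_zero.1 h3 with h | h
  · exact absurd h h4
  · exact_mod_cast h

end

variable {V : Type*} {G : SimpleGraph V} {p : V → ℝ × ℝ}

/-- two-coloured crossings: every crossing is between an edge with both ends of one colour and an edge
with both ends of the other colour -/
def TwoCol (G : SimpleGraph V) (p : V → ℝ × ℝ) (red : V → Prop) : Prop :=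
  ∀ a b c d, Cross G p a b c d → (red a ∧ red b ∧ ¬ red c ∧ ¬ red d) ∨ (¬ red a ∧ ¬ red b ∧ red c ∧ red d)

lemma level_bip [Fintype V] (hp : IsRac1 G p) (red : V → Prop) (hcol : TwoCol G p red) {ε : ℝ} (hε : 0 < ε) :
    ∃ q : V → ℚ × ℚ, (∀ v, dist (cst (q v)) (p v) < ε) ∧
      ∀ a b c d, Cross G p a b c d → red a → dot (cst (q a) - cst (q b)) (cst (q c) - cst (q d)) = 0 := by
  classical
  let ι := {e : Sym2 V // ∃ a c b d, e = s(a, c) ∧ Cross G p a c b d ∧ red a ∧ 0 < det2 (p c - p a) (p d - p b)}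
  have hι : ∀ e : ι, ∃ a c b d, e.1 = s(a, c) ∧ Cross G p a c b d ∧ red a ∧ 0 < det2 (p c - p a) (p d - p b) :=
    fun e => e.2
  choose A C B D he hcr hred hdet using hι
  have hcol' : ∀ e, red (A e) ∧ red (C e) ∧ ¬ red (B e) ∧ ¬ red (D e) := by
    intro e
    rcases hcol _ _ _ _ (hcr e) with h | h
    · exact h
    · exact absurd (hred e) h.1
  have hω : ∀ e, ∃ w : ℝ, 0 < w ∧ (p (D e) - p (B e)).1 + w * (p (C e) - p (A e)).2 = 0 ∧
      (p (D e) - p (B e)).2 - w * (p (C e) - p (A e)).1 = 0 := by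
    intro e
    obtain ⟨n1, n2, -, -, -, -⟩ := cross_ne hp.draw (hcr e)
    have hu : p (C e) - p (A e) ≠ 0 := fun h => n1 (hp.draw.inj (sub_eq_zero.1 h)).symm
    have hv : p (D e) - p (B e) ≠ 0 := fun h => n2 (hp.draw.inj (sub_eq_zero.1 h)).symm
    have hperp : dot (p (C e) - p (A e)) (p (D e) - p (B e)) = 0 := by
      have h1 := hp.right _ _ _ _ (hcr e)
      unfold dot at h1 ⊢
      simp only [Prod.fst_sub, Prod.snd_sub] at h1 ⊢
      linear_combination h1
    obtain ⟨w, hw, hw'⟩ := rot_of_perp hu hv hperp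
    have hd := hdet e
    have e1 := congrArg Prod.fst hw'
    have e2 := congrArg Prod.snd hw'
    simp only [Prod.smul_fst, Prod.smul_snd, smul_eq_mul] at e1 e2
    refine ⟨w, ?_, by rw [e1]; ring, by rw [e2]; ring⟩
    unfold det2 at hd
    rw [e1, e2] at hd
    have h2 : 0 < w * ((p (C e) - p (A e)).1 * (p (C e) - p (A e)).1 +
        (p (C e) - p (A e)).2 * (p (C e) - p (A e)).2) := by
      have : w * ((p (C e) - p (A e)).1 * (p (C e) - p (A e)).1 +
        (p (C e) - p (A e)).2 * (p (C e) - p (A e)).2) =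
        (p (C e) - p (A e)).1 * (w * (p (C e) - p (A e)).1) -
          (p (C e) - p (A e)).2 * (w * -(p (C e) - p (A e)).2) := by ring
      rw [this]
      exact hd
    by_contra hcon
    have h3 := mul_nonpos_of_nonpos_of_nonneg (not_lt.1 hcon)
      (add_nonneg (mul_self_nonneg (p (C e) - p (A e)).1) (mul_self_nonneg (p (C e) - p (A e)).2))
    linarith
  choose w hw0 hw1 hw2 using hω
  let db : ι → V → ℝ := fun e v => (if D e = v then 1 else 0) - (if B e = v then 1 else 0)
  let ca : ι → V → ℝ := fun e v => (if C e = v then 1 else 0) - (if A e = v then 1 else 0)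
  let M₀ : ι × Bool → V × Bool → ℝ := fun e k =>
    cond e.2 (cond k.2 (db e.1 k.1) (w e.1 * ca e.1 k.1)) (cond k.2 (-(w e.1 * ca e.1 k.1)) (db e.1 k.1))
  -- geometry of the crossings
  have geo : ∀ f g : ι → ℝ, (∀ v, ∑ i, f i * ca i v = 0) → (∀ v, ∑ i, g i * db i v = 0) → ∑ j, f j * g j = 0 := by
    intro f g hf hg
    refine inter_zero p A C B D f g hf hg ?_ ?_ ?_ ?_ ?_ ?_ hdet
    · intro i j hij
      by_contra hcon
      have hne : ∀ x y, red x → ¬ red y → x ≠ y := by
        rintro x y h1 h2 rfl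
        exact h2 h1
      have hA1 : G.Adj (A i) (C i) := by
        obtain ⟨x, hx⟩ := hcr i
        exact hx.1
      have hA2 : G.Adj (B j) (D j) := by
        obtain ⟨x, hx⟩ := hcr j
        exact hx.2.1
      have h1 := cross_of_meet hp.draw hA1 hA2 (hne _ _ (hcol' i).1 (hcol' j).2.2.1)
        (hne _ _ (hcol' i).1 (hcol' j).2.2.2) (hne _ _ (hcol' i).2.1 (hcol' j).2.2.1)
        (hne _ _ (hcol' i).2.1 (hcol' j).2.2.2) hcon
      have h2 := partner_unique hp h1.symm (hcr j).symm
      exact hij (Subtype.ext (by rw [he i, he j]; exact h2))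
    · intro j
      obtain ⟨n1, n2, n3, n4, n5, n6⟩ := cross_ne hp.draw (hcr j)
      obtain ⟨x, hx⟩ := hcr j
      exact hp.draw.vertex _ _ _ hx.2.1 n3 n4
    · intro j
      obtain ⟨n1, n2, n3, n4, n5, n6⟩ := cross_ne hp.draw (hcr j)
      obtain ⟨x, hx⟩ := hcr j
      exact hp.draw.vertex _ _ _ hx.2.1 n5 n6
    · intro j h
      exact (cross_ne hp.draw (hcr j)).1 (hp.draw.inj h)
    · intro j
      obtain ⟨x, hx⟩ := hcr j
      exact ⟨x, hx.2.2.2.1, hx.2.2.2.2⟩
    · intro j
      have h1 := hp.right _ _ _ _ (hcr j)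
      unfold dot at h1 ⊢
      simp only [Prod.fst_sub, Prod.snd_sub] at h1 ⊢
      linear_combination h1
  have hredca : ∀ e v, ¬ red v → ca e v = 0 := by
    intro e v hv
    show (if C e = v then (1 : ℝ) else 0) - (if A e = v then 1 else 0) = 0
    rw [if_neg (fun h => hv (by rw [← h]; exact (hcol' e).2.1)),
      if_neg (fun h => hv (by rw [← h]; exact (hcol' e).1)), sub_zero]
  have hreddb : ∀ e v, red v → db e v = 0 := by
    intro e v hv
    show (if D e = v then (1 : ℝ) else 0) - (if B e = v then 1 else 0) = 0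
    rw [if_neg (fun h => (hcol' e).2.2.2 (by rw [h]; exact hv)),
      if_neg (fun h => (hcol' e).2.2.1 (by rw [h]; exact hv)), sub_zero]
  have hsq : ∀ l : ι → ℝ, (∀ v, ∑ i, (w i * l i) * ca i v = 0) → (∀ v, ∑ i, l i * db i v = 0) → ∀ i, l i = 0 := by
    intro l h1 h2 i
    have h3 := geo (fun i => w i * l i) l h1 h2
    have h4 := (Finset.sum_eq_zero_iff_of_nonneg (fun j _ => by
      have : 0 ≤ w j * (l j * l j) := mul_nonneg (hw0 j).le (mul_self_nonneg _)
      linarith [this, mul_assoc (w j) (l j) (l j)])).1 h3 i (Finset.mem_univ i)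
    have h5 : w i * (l i * l i) = 0 := by rw [← h4]; ring
    rcases mul_eq_zero.1 h5 with h | h
    · exact absurd h (hw0 i).ne'
    · exact mul_self_eq_zero.1 h
  have hM₀ : ∀ l : ι × Bool → ℝ, (∀ k, ∑ i, l i * M₀ i k = 0) → l = 0 := by
    intro l hl
    have col1 : ∀ v, ∑ i : ι, (l (i, true) * db i v - l (i, false) * (w i * ca i v)) = 0 := by
      intro v
      have := hl (v, true)
      rw [Fintype.sum_prod_type] at this
      refine Eq.trans (Finset.sum_congr rfl (fun i _ => ?_)) this
      rw [Fintype.sum_bool]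
      show _ = l (i, true) * db i v + l (i, false) * (-(w i * ca i v))
      ring
    have col2 : ∀ v, ∑ i : ι, (l (i, true) * (w i * ca i v) + l (i, false) * db i v) = 0 := by
      intro v
      have := hl (v, false)
      rw [Fintype.sum_prod_type] at this
      refine Eq.trans (Finset.sum_congr rfl (fun i _ => ?_)) this
      rw [Fintype.sum_bool]
      rfl
    have z1 : ∀ i, l (i, true) = 0 := by
      refine hsq (fun i => l (i, true)) (fun v => ?_) (fun v => ?_)
      · by_cases hv : red v
        · refine Eq.trans (Finset.sum_congr rfl (fun i _ => ?_)) (col2 v)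
          rw [hreddb i v hv]
          ring
        · refine Finset.sum_eq_zero (fun i _ => ?_)
          rw [hredca i v hv, mul_zero]
      · by_cases hv : red v
        · refine Finset.sum_eq_zero (fun i _ => ?_)
          rw [hreddb i v hv, mul_zero]
        · refine Eq.trans (Finset.sum_congr rfl (fun i _ => ?_)) (col1 v)
          rw [hredca i v hv]
          ring
    have z2 : ∀ i, l (i, false) = 0 := by
      refine hsq (fun i => l (i, false)) (fun v => ?_) (fun v => ?_)
      · by_cases hv : red v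
        · have h1 := col1 v
          rw [← neg_eq_zero, ← Finset.sum_neg_distrib]
          refine Eq.trans (Finset.sum_congr rfl (fun i _ => ?_)) h1
          rw [hreddb i v hv]
          ring
        · refine Finset.sum_eq_zero (fun i _ => ?_)
          rw [hredca i v hv, mul_zero]
      · by_cases hv : red v
        · refine Finset.sum_eq_zero (fun i _ => ?_)
          rw [hreddb i v hv, mul_zero]
        · refine Eq.trans (Finset.sum_congr rfl (fun i _ => ?_)) (col2 v)
          rw [hredca i v hv]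
          ring
    funext x
    obtain ⟨i, b⟩ := x
    cases b
    · exact z2 i
    · exact z1 i
  obtain ⟨δ, hδ, hla⟩ := la M₀ hM₀ (half_pos hε)
  -- residuals
  let R1 : (V → ℝ × ℝ) × (ι → ℝ) → ι → ℝ := fun z e => (z.1 (D e) - z.1 (B e)).1 + z.2 e * (z.1 (C e) - z.1 (A e)).2
  let R2 : (V → ℝ × ℝ) × (ι → ℝ) → ι → ℝ := fun z e => (z.1 (D e) - z.1 (B e)).2 - z.2 e * (z.1 (C e) - z.1 (A e)).1
  have ev : ∀ᶠ z : (V → ℝ × ℝ) × (ι → ℝ) in 𝓝 (p, w), (∀ e, |R1 z e| < δ) ∧ ∀ e, |R2 z e| < δ := by
    refine Filter.Eventually.and ?_ ?_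
    · rw [Filter.eventually_all]
      intro e
      have c1 : Continuous (fun z : (V → ℝ × ℝ) × (ι → ℝ) => |R1 z e|) := by
        show Continuous (fun z : (V → ℝ × ℝ) × (ι → ℝ) =>
          |(z.1 (D e) - z.1 (B e)).1 + z.2 e * (z.1 (C e) - z.1 (A e)).2|)
        fun_prop
      refine c1.continuousAt.eventually_lt continuousAt_const ?_
      show |(p (D e) - p (B e)).1 + w e * (p (C e) - p (A e)).2| < δ
      rw [hw1 e, abs_zero]
      exact hδ
    · rw [Filter.eventually_all]
      intro e
      have c1 : Continuous (fun z : (V → ℝ × ℝ) × (ι → ℝ) => |R2 z e|) := by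
        show Continuous (fun z : (V → ℝ × ℝ) × (ι → ℝ) =>
          |(z.1 (D e) - z.1 (B e)).2 - z.2 e * (z.1 (C e) - z.1 (A e)).1|)
        fun_prop
      refine c1.continuousAt.eventually_lt continuousAt_const ?_
      show |(p (D e) - p (B e)).2 - w e * (p (C e) - p (A e)).1| < δ
      rw [hw2 e, abs_zero]
      exact hδ
  obtain ⟨δ', hδ', hball⟩ := Metric.eventually_nhds_iff.1 ev
  set η := min (min δ δ') (ε / 2) with hη
  have hη0 : 0 < η := lt_min (lt_min hδ hδ') (half_pos hε)
  obtain ⟨q, hq⟩ := exists_rat_point p hη0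
  have hwq : ∀ e, ∃ x : ℚ, |(x : ℝ) - w e| < η := fun e => exists_rat_near (w e) hη0
  choose wq hwq using hwq
  obtain ⟨f1, f2⟩ := @hball (fun v => cst (q v), fun e => (wq e : ℝ)) (by
    rw [Prod.dist_eq]
    apply max_lt
    · rw [dist_pi_lt_iff hδ']
      intro v
      exact (hq v).trans_le ((min_le_left _ _).trans (min_le_right _ _))
    · rw [dist_pi_lt_iff hδ']
      intro e
      rw [Real.dist_eq]
      exact (hwq e).trans_le ((min_le_left _ _).trans (min_le_right _ _)))
  let dbq : ι → V → ℚ := fun e v => (if D e = v then 1 else 0) - (if B e = v then 1 else 0)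
  let caq : ι → V → ℚ := fun e v => (if C e = v then 1 else 0) - (if A e = v then 1 else 0)
  have hdbq : ∀ e v, (dbq e v : ℝ) = db e v := by
    intro e v
    show (((if D e = v then 1 else 0) - (if B e = v then 1 else 0) : ℚ) : ℝ) =
      (if D e = v then 1 else 0) - (if B e = v then 1 else 0)
    split_ifs <;> norm_num
  have hcaq : ∀ e v, (caq e v : ℝ) = ca e v := by
    intro e v
    show (((if C e = v then 1 else 0) - (if A e = v then 1 else 0) : ℚ) : ℝ) =
      (if C e = v then 1 else 0) - (if A e = v then 1 else 0)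
    split_ifs <;> norm_num
  have hca1 : ∀ e v, |ca e v| ≤ 1 := by
    intro e v
    show |(if C e = v then (1 : ℝ) else 0) - (if A e = v then 1 else 0)| ≤ 1
    split_ifs <;> norm_num
  let M : ι × Bool → V × Bool → ℚ := fun e k =>
    cond e.2 (cond k.2 (dbq e.1 k.1) (wq e.1 * caq e.1 k.1)) (cond k.2 (-(wq e.1 * caq e.1 k.1)) (dbq e.1 k.1))
  let s : ι × Bool → ℚ := fun e => cond e.2
    (-((q (D e.1) - q (B e.1)).1 + wq e.1 * (q (C e.1) - q (A e.1)).2))
    (-((q (D e.1) - q (B e.1)).2 - wq e.1 * (q (C e.1) - q (A e.1)).1))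
  have hwca : ∀ e v, |(wq e : ℝ) * ca e v - w e * ca e v| < δ := by
    intro e v
    rw [← sub_mul, abs_mul]
    have h1 := (hwq e).trans_le ((min_le_left _ _).trans (min_le_left δ δ'))
    calc |(wq e : ℝ) - w e| * |ca e v| ≤ |(wq e : ℝ) - w e| * 1 :=
          mul_le_mul_of_nonneg_left (hca1 e v) (abs_nonneg _)
      _ < δ := by rw [mul_one]; exact h1
  obtain ⟨y, hy1, hy2⟩ := hla M s (by
      rintro ⟨e, b⟩ ⟨v, k⟩
      cases b <;> cases k
      · show |((dbq e v : ℚ) : ℝ) - db e v| < δ
        rw [hdbq, sub_self, abs_zero]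
        exact hδ
      · show |((-(wq e * caq e v) : ℚ) : ℝ) - (-(w e * ca e v))| < δ
        rw [Rat.cast_neg, Rat.cast_mul, hcaq, ← neg_sub', abs_neg]
        exact hwca e v
      · show |((wq e * caq e v : ℚ) : ℝ) - w e * ca e v| < δ
        rw [Rat.cast_mul, hcaq]
        exact hwca e v
      · show |((dbq e v : ℚ) : ℝ) - db e v| < δ
        rw [hdbq, sub_self, abs_zero]
        exact hδ) (by
      rintro ⟨e, b⟩
      cases b
      · have := f2 e
        show |((-((q (D e) - q (B e)).2 - wq e * (q (C e) - q (A e)).1) : ℚ) : ℝ)| < δ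
        rw [Rat.cast_neg, abs_neg]
        have e1 : (((q (D e) - q (B e)).2 - wq e * (q (C e) - q (A e)).1 : ℚ) : ℝ) =
            R2 (fun v => cst (q v), fun e => (wq e : ℝ)) e := by
          show _ = (cst (q (D e)) - cst (q (B e))).2 - (wq e : ℝ) * (cst (q (C e)) - cst (q (A e))).1
          unfold cst
          simp only [Prod.fst_sub, Prod.snd_sub]
          push_cast
          ring
        rw [e1]
        exact this
      · have := f1 e
        show |((-((q (D e) - q (B e)).1 + wq e * (q (C e) - q (A e)).2) : ℚ) : ℝ)| < δ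
        rw [Rat.cast_neg, abs_neg]
        have e1 : (((q (D e) - q (B e)).1 + wq e * (q (C e) - q (A e)).2 : ℚ) : ℝ) =
            R1 (fun v => cst (q v), fun e => (wq e : ℝ)) e := by
          show _ = (cst (q (D e)) - cst (q (B e))).1 + (wq e : ℝ) * (cst (q (C e)) - cst (q (A e))).2
          unfold cst
          simp only [Prod.fst_sub, Prod.snd_sub]
          push_cast
          ring
        rw [e1]
        exact this)
  let Y : V → ℚ × ℚ := fun v => (y (v, true), y (v, false))
  have hsum : ∀ (a b : V) (k : Bool), ∑ v, ((if a = v then (1 : ℚ) else 0) - (if b = v then 1 else 0)) * y (v, k) =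
      y (a, k) - y (b, k) := by
    intro a b k
    have h1 : ∀ v, ((if a = v then (1 : ℚ) else 0) - (if b = v then 1 else 0)) * y (v, k) =
        (if a = v then y (v, k) else 0) - (if b = v then y (v, k) else 0) := by
      intro v
      split_ifs <;> ring
    rw [Finset.sum_congr rfl (fun v _ => h1 v), Finset.sum_sub_distrib, Finset.sum_ite_eq, Finset.sum_ite_eq,
      if_pos (Finset.mem_univ _), if_pos (Finset.mem_univ _)]
  have eq1 : ∀ e : ι, (q (D e) + Y (D e) - (q (B e) + Y (B e))).1 +
      wq e * (q (C e) + Y (C e) - (q (A e) + Y (A e))).2 = 0 := by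
    intro e
    have h1 := hy2 (e, true)
    rw [Fintype.sum_prod_type] at h1
    have h2 : ∀ v, ∑ k : Bool, M (e, true) (v, k) * y (v, k) =
        ((if D e = v then (1 : ℚ) else 0) - (if B e = v then 1 else 0)) * y (v, true) +
        wq e * (((if C e = v then (1 : ℚ) else 0) - (if A e = v then 1 else 0)) * y (v, false)) := by
      intro v
      rw [Fintype.sum_bool]
      show dbq e v * y (v, true) + (wq e * caq e v) * y (v, false) = _
      show ((if D e = v then (1 : ℚ) else 0) - (if B e = v then 1 else 0)) * y (v, true) +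
        (wq e * ((if C e = v then (1 : ℚ) else 0) - (if A e = v then 1 else 0))) * y (v, false) = _
      ring
    rw [Finset.sum_congr rfl (fun v _ => h2 v), Finset.sum_add_distrib, ← Finset.mul_sum, hsum, hsum] at h1
    have h3 : y (D e, true) - y (B e, true) + wq e * (y (C e, false) - y (A e, false)) =
      -((q (D e) - q (B e)).1 + wq e * (q (C e) - q (A e)).2) := h1
    show (q (D e) + (y (D e, true), y (D e, false)) - (q (B e) + (y (B e, true), y (B e, false)))).1 +
      wq e * (q (C e) + (y (C e, true), y (C e, false)) - (q (A e) + (y (A e, true), y (A e, false)))).2 = 0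
    simp only [Prod.fst_sub, Prod.snd_sub, Prod.fst_add, Prod.snd_add] at h3 ⊢
    linear_combination h3
  have eq2 : ∀ e : ι, (q (D e) + Y (D e) - (q (B e) + Y (B e))).2 -
      wq e * (q (C e) + Y (C e) - (q (A e) + Y (A e))).1 = 0 := by
    intro e
    have h1 := hy2 (e, false)
    rw [Fintype.sum_prod_type] at h1
    have h2 : ∀ v, ∑ k : Bool, M (e, false) (v, k) * y (v, k) =
        ((if D e = v then (1 : ℚ) else 0) - (if B e = v then 1 else 0)) * y (v, false) -
        wq e * (((if C e = v then (1 : ℚ) else 0) - (if A e = v then 1 else 0)) * y (v, true)) := by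
      intro v
      rw [Fintype.sum_bool]
      show (-(wq e * caq e v)) * y (v, true) + dbq e v * y (v, false) = _
      show (-(wq e * ((if C e = v then (1 : ℚ) else 0) - (if A e = v then 1 else 0)))) * y (v, true) +
        ((if D e = v then (1 : ℚ) else 0) - (if B e = v then 1 else 0)) * y (v, false) = _
      ring
    rw [Finset.sum_congr rfl (fun v _ => h2 v), Finset.sum_sub_distrib, ← Finset.mul_sum, hsum, hsum] at h1
    have h3 : y (D e, false) - y (B e, false) - wq e * (y (C e, true) - y (A e, true)) =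
      -((q (D e) - q (B e)).2 - wq e * (q (C e) - q (A e)).1) := h1
    show (q (D e) + (y (D e, true), y (D e, false)) - (q (B e) + (y (B e, true), y (B e, false)))).2 -
      wq e * (q (C e) + (y (C e, true), y (C e, false)) - (q (A e) + (y (A e, true), y (A e, false)))).1 = 0
    simp only [Prod.fst_sub, Prod.snd_sub, Prod.fst_add, Prod.snd_add] at h3 ⊢
    linear_combination h3
  refine ⟨fun v => q v + Y v, fun v => ?_, fun a b c d h hra => ?_⟩
  · have h3 := (hq v).trans_le (min_le_right _ _)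
    have h4 : dist (cst (q v + Y v)) (cst (q v)) < ε / 2 := by
      rw [Prod.dist_eq]
      apply max_lt
      · rw [Real.dist_eq]
        show |(((q v).1 + y (v, true) : ℚ) : ℝ) - ((q v).1 : ℝ)| < ε / 2
        rw [Rat.cast_add, add_sub_cancel_left]
        exact hy1 _
      · rw [Real.dist_eq]
        show |(((q v).2 + y (v, false) : ℚ) : ℝ) - ((q v).2 : ℝ)| < ε / 2
        rw [Rat.cast_add, add_sub_cancel_left]
        exact hy1 _
    calc dist (cst (q v + Y v)) (p v) ≤ dist (cst (q v + Y v)) (cst (q v)) + dist (cst (q v)) (p v) :=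
          dist_triangle _ _ _
      _ < ε / 2 + ε / 2 := add_lt_add h4 h3
      _ = ε := add_halves ε
  · -- the equation of a crossing
    obtain ⟨n1, n2, n3, n4, n5, n6⟩ := cross_ne hp.draw h
    have hdne : det2 (p b - p a) (p d - p c) ≠ 0 := by
      refine det_ne_of_perp (fun h' => n1 (hp.draw.inj (sub_eq_zero.1 h')).symm)
        (fun h' => n2 (hp.draw.inj (sub_eq_zero.1 h')).symm) ?_
      have h1 := hp.right _ _ _ _ h
      unfold dot at h1 ⊢
      simp only [Prod.fst_sub, Prod.snd_sub] at h1 ⊢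
      linear_combination h1
    have hmem : ∃ e : ι, e.1 = s(a, b) := by
      rcases lt_or_gt_of_ne hdne with h1 | h1
      · refine ⟨⟨s(a, b), a, b, d, c, rfl, h.swap', hra, ?_⟩, rfl⟩
        unfold det2 at h1 ⊢
        simp only [Prod.fst_sub, Prod.snd_sub] at h1 ⊢
        linarith
      · exact ⟨⟨s(a, b), a, b, c, d, rfl, h, hra, h1⟩, rfl⟩
    obtain ⟨e, hee⟩ := hmem
    have e1 : s(a, b) = s(A e, C e) := hee.symm.trans (he e)
    have key : dot (cst (q (A e) + Y (A e)) - cst (q (C e) + Y (C e)))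
        (cst (q (B e) + Y (B e)) - cst (q (D e) + Y (D e))) = 0 := by
      have g1 := congrArg (fun x : ℚ => (x : ℝ)) (eq1 e)
      have g2 := congrArg (fun x : ℚ => (x : ℝ)) (eq2 e)
      simp only [Prod.fst_sub, Prod.snd_sub] at g1 g2
      push_cast at g1 g2
      unfold dot cst
      simp only [Prod.fst_sub, Prod.snd_sub]
      linear_combination ((((q (C e) + Y (C e)).1 : ℚ) : ℝ) - (((q (A e) + Y (A e)).1 : ℚ) : ℝ)) * g1 +
        ((((q (C e) + Y (C e)).2 : ℚ) : ℝ) - (((q (A e) + Y (A e)).2 : ℚ) : ℝ)) * g2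
    have hcr' : Cross G p a b (B e) (D e) := by
      have h5 := hcr e
      rw [Sym2.eq_iff] at e1
      rcases e1 with ⟨g1, g2⟩ | ⟨g1, g2⟩
      · rw [g1, g2]
        exact h5
      · rw [g1, g2]
        exact h5.swap
    have e2 := partner_unique hp hcr' h
    have neg1 : ∀ u v w z : ℝ × ℝ, dot (u - v) (w - z) = 0 → dot (v - u) (w - z) = 0 := by
      intro u v w z h
      unfold dot at h ⊢
      simp only [Prod.fst_sub, Prod.snd_sub] at h ⊢
      linear_combination -h
    have neg2 : ∀ u v w z : ℝ × ℝ, dot (u - v) (w - z) = 0 → dot (u - v) (z - w) = 0 := by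
      intro u v w z h
      unfold dot at h ⊢
      simp only [Prod.fst_sub, Prod.snd_sub] at h ⊢
      linear_combination -h
    rw [Sym2.eq_iff] at e1 e2
    show dot (cst (q a + Y a) - cst (q b + Y b)) (cst (q c + Y c) - cst (q d + Y d)) = 0
    rcases e1 with ⟨g1, g2⟩ | ⟨g1, g2⟩ <;> rcases e2 with ⟨g3, g4⟩ | ⟨g3, g4⟩
    · rw [g1, g2, ← g3, ← g4]
      exact key
    · rw [g1, g2, ← g3, ← g4]
      exact neg2 _ _ _ _ key
    · rw [g1, g2, ← g3, ← g4]
      exact neg1 _ _ _ _ key
    · rw [g1, g2, ← g3, ← g4]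
      exact neg1 _ _ _ _ (neg2 _ _ _ _ key)

/-- two-coloured crossings -/
theorem rational_bip [Fintype V] (hp : IsRac1 G p) (red : V → Prop) (hcol : TwoCol G p red) {ε : ℝ} (hε : 0 < ε) :
    ∃ q : V → ℚ × ℚ, IsRac1 G (fun v => cst (q v)) ∧ (∀ v, dist (cst (q v)) (p v) < ε) ∧
      ∀ a b c d, Cross G (fun v => cst (q v)) a b c d ↔ Cross G p a b c d := by
  obtain ⟨ε', hε', hst⟩ := stable hp
  obtain ⟨q, h1, h2⟩ := level_bip hp red hcol (lt_min hε hε')
  obtain ⟨h3, h4⟩ := hst (fun v => cst (q v)) (fun v => (h1 v).trans_le (min_le_right _ _)) (by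
    intro a b c d h
    rcases hcol _ _ _ _ h with hc | hc
    · exact h2 a b c d h hc.1
    · have h5 := h2 c d a b h.symm hc.2.2.1
      show dot (cst (q a) - cst (q b)) (cst (q c) - cst (q d)) = 0
      unfold dot at h5 ⊢
      linear_combination h5)
  exact ⟨q, h3, fun v => (h1 v).trans_le (min_le_left _ _), h4⟩

end Pool.Agent.LibRac44
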