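import Pool.Agent.LibRac44.Grid

/-! Drawings with the vertices in convex position. -/

namespace Pool.Agent.LibRac44

open Set

variable {V : Type*} {G : SimpleGraph V} {p : V → ℝ × ℝ}

/-- the vertices are in strictly convex position, numbered counterclockwise by `o` -/
def ConvexPos (p : V → ℝ × ℝ) (o : V → ℕ) : Prop :=
  Function.Injective o ∧ ∀ i j k : V, o i < o j → o j < o k → 0 < det2 (p j - p i) (p k - p i)

/-- interleaved edges cross -/
lemma cross_of_inter {o : V → ℕ} (hc : ConvexPos p o) {a b c d : V} (h1 : G.Adj a b) (h2 : G.Adj c d)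
    (hac : o a < o c) (hcb : o c < o b) (hbd : o b < o d) : Cross G p a b c d := by
  have k1 := hc.2 a c b hac hcb
  have k2 := hc.2 a c d hac (hcb.trans hbd)
  have k3 := hc.2 a b d (hac.trans hcb) hbd
  have k4 := hc.2 c b d hcb hbd
  unfold det2 at k1 k2 k3 k4
  simp only [Prod.fst_sub, Prod.snd_sub] at k1 k2 k3 k4
  set A := p a
  set B := p b
  set C := p c
  set D := p d
  set w : ℝ := (B.1 - A.1) * (D.2 - C.2) - (B.2 - A.2) * (D.1 - C.1) with hw
  have hw0 : 0 < w := by rw [hw]; nlinarith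
  set s : ℝ := ((C.1 - A.1) * (D.2 - C.2) - (C.2 - A.2) * (D.1 - C.1)) / w with hs
  set t : ℝ := ((C.1 - A.1) * (B.2 - A.2) - (C.2 - A.2) * (B.1 - A.1)) / w with ht
  have hs' : s * w = (C.1 - A.1) * (D.2 - C.2) - (C.2 - A.2) * (D.1 - C.1) := div_mul_cancel₀ _ hw0.ne'
  have ht' : t * w = (C.1 - A.1) * (B.2 - A.2) - (C.2 - A.2) * (B.1 - A.1) := div_mul_cancel₀ _ hw0.ne'
  have hs0 : 0 < s := div_pos (by nlinarith) hw0
  have ht0 : 0 < t := div_pos (by nlinarith) hw0
  have hs1 : s < 1 := by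
    rw [hs, div_lt_one hw0, hw]
    nlinarith
  have ht1 : t < 1 := by
    rw [ht, div_lt_one hw0, hw]
    nlinarith
  have hne : s(a, b) ≠ s(c, d) := by
    intro e
    rw [Sym2.eq_iff] at e
    rcases e with ⟨e1, e2⟩ | ⟨e1, e2⟩
    · rw [e1] at hac
      exact lt_irrefl _ hac
    · rw [e2] at hcb
      exact lt_irrefl _ hcb
  refine ⟨A + s • (B - A), h1, h2, hne, mem_oseg.2 ⟨s, hs0, hs1, rfl⟩, mem_oseg.2 ⟨t, ht0, ht1, ?_⟩⟩
  show C + t • (D - C) = A + s • (B - A)
  refine Prod.ext ?_ ?_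
  · simp only [Prod.fst_add, Prod.smul_fst, Prod.fst_sub, smul_eq_mul]
    apply mul_right_cancel₀ hw0.ne'
    rw [hw] at hs' ht' ⊢
    linear_combination (D.1 - C.1) * ht' - (B.1 - A.1) * hs'
  · simp only [Prod.snd_add, Prod.smul_snd, Prod.snd_sub, smul_eq_mul]
    apply mul_right_cancel₀ hw0.ne'
    rw [hw] at hs' ht' ⊢
    linear_combination (D.2 - C.2) * ht' - (B.2 - A.2) * hs'

lemma side_of_cross {A B C D x : ℝ × ℝ} (h1 : x ∈ openSegment ℝ A B) (h2 : x ∈ openSegment ℝ C D) :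
    ¬ (0 < det2 (B - A) (C - A) ∧ 0 < det2 (B - A) (D - A)) ∧
      ¬ (det2 (B - A) (C - A) < 0 ∧ det2 (B - A) (D - A) < 0) := by
  obtain ⟨s, -, -, hs⟩ := mem_oseg.1 h1
  obtain ⟨t, ht0, ht1, ht⟩ := mem_oseg.1 h2
  have key : (1 - t) * det2 (B - A) (C - A) + t * det2 (B - A) (D - A) = 0 := by
    have e1 : A.1 + s * (B.1 - A.1) = C.1 + t * (D.1 - C.1) := by
      have := congrArg Prod.fst (hs.trans ht.symm)
      simpa using this
    have e2 : A.2 + s * (B.2 - A.2) = C.2 + t * (D.2 - C.2) := by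
      have := congrArg Prod.snd (hs.trans ht.symm)
      simpa using this
    unfold det2
    simp only [Prod.fst_sub, Prod.snd_sub]
    linear_combination (B.2 - A.2) * e1 - (B.1 - A.1) * e2
  constructor
  · rintro ⟨g1, g2⟩
    nlinarith [mul_pos (show 0 < 1 - t by linarith) g1, mul_pos ht0 g2]
  · rintro ⟨g1, g2⟩
    nlinarith [mul_pos (show 0 < 1 - t by linarith) (neg_pos.2 g1), mul_pos ht0 (neg_pos.2 g2)]

/-- crossing edges are interleaved -/
lemma inter_of_cross (hp : IsDrawing G p) {o : V → ℕ} (hc : ConvexPos p o) {a b c d : V} (h : Cross G p a b c d)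
    (hab : o a < o b) (hcd : o c < o d) (hac : o a < o c) : o c < o b ∧ o b < o d := by
  obtain ⟨n1, n2, n3, n4, n5, n6⟩ := cross_ne hp h
  obtain ⟨x, hx⟩ := h
  obtain ⟨s1, s2⟩ := side_of_cross hx.2.2.2.1 hx.2.2.2.2
  have hcb : o c < o b := by
    by_contra hcon
    have hbc : o b < o c := lt_of_le_of_ne (not_lt.1 hcon) (fun e => n5 (hc.1 e))
    exact s1 ⟨hc.2 a b c hab hbc, hc.2 a b d hab (hbc.trans hcd)⟩
  refine ⟨hcb, ?_⟩
  by_contra hcon
  have hdb : o d < o b := lt_of_le_of_ne (not_lt.1 hcon) (fun e => n6 (hc.1 e.symm))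
  have g1 := hc.2 a c b hac hcb
  have g2 := hc.2 a d b (hac.trans hcd) hdb
  have anti : ∀ x y : ℝ × ℝ, det2 x y = - det2 y x := by
    intro x y
    unfold det2
    ring
  exact s2 ⟨by rw [anti]; linarith, by rw [anti]; linarith⟩

lemma cross_of_in_out {o : V → ℕ} (hc : ConvexPos p o) {a b x y : V} (h1 : G.Adj a b) (h2 : G.Adj x y)
    (hax : o a < o x) (hxb : o x < o b) (hy : o y < o a ∨ o b < o y) : Cross G p a b x y := by
  rcases hy with hy | hy
  · exact (cross_of_inter hc h2.symm h1 hy hax hxb).symm.swap'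
  · exact cross_of_inter hc h1 h2 hax hxb hy

lemma in_out_of_cross (hp : IsDrawing G p) {o : V → ℕ} (hc : ConvexPos p o) {a b x y : V} (h : Cross G p a b x y)
    (hab : o a < o b) : (o a < o x ∧ o x < o b ∧ (o y < o a ∨ o b < o y)) ∨
      (o a < o y ∧ o y < o b ∧ (o x < o a ∨ o b < o x)) := by
  have key : ∀ x y : V, Cross G p a b x y → o x < o y → (o a < o x ∧ o x < o b ∧ (o y < o a ∨ o b < o y)) ∨
      (o a < o y ∧ o y < o b ∧ (o x < o a ∨ o b < o x)) := by
    intro x y h hxy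
    obtain ⟨n1, n2, n3, n4, n5, n6⟩ := cross_ne hp h
    rcases lt_or_gt_of_ne (fun e : o a = o x => n3 (hc.1 e)) with hax | hax
    · obtain ⟨g1, g2⟩ := inter_of_cross hp hc h hab hxy hax
      exact Or.inl ⟨hax, g1, Or.inr g2⟩
    · obtain ⟨g1, g2⟩ := inter_of_cross hp hc h.symm hxy hab hax
      exact Or.inr ⟨g1, g2, Or.inl hax⟩
  obtain ⟨n1, n2, n3, n4, n5, n6⟩ := cross_ne hp h
  rcases lt_or_gt_of_ne (fun e : o x = o y => n2 (hc.1 e)) with hxy | hxy
  · exact key x y h hxy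
  · exact (key y x h.swap' hxy).symm

/-- a crossing inside a set, in normal form -/
def Norm (G : SimpleGraph V) (p : V → ℝ × ℝ) (o : V → ℕ) (S : Set V) (a b c d : V) : Prop :=
  a ∈ S ∧ b ∈ S ∧ c ∈ S ∧ d ∈ S ∧ Cross G p a b c d ∧ o a < o c ∧ o c < o b ∧ o b < o d

lemma norm_of (hp : IsDrawing G p) {o : V → ℕ} (hc : ConvexPos p o) {S : Set V} {L R : ℕ} {a b c d : V}
    (h : Cross G p a b c d) (ha : a ∈ S) (hb : b ∈ S) (hcS : c ∈ S) (hd : d ∈ S)
    (ba : L ≤ o a ∧ o a ≤ R) (bb : L ≤ o b ∧ o b ≤ R) (bc : L ≤ o c ∧ o c ≤ R) (bd : L ≤ o d ∧ o d ≤ R) :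
    ∃ a' b' c' d', Norm G p o S a' b' c' d' ∧ L ≤ o a' ∧ o d' ≤ R := by
  have step : ∀ a b c d : V, Cross G p a b c d → a ∈ S → b ∈ S → c ∈ S → d ∈ S → (L ≤ o a ∧ o a ≤ R) →
      (L ≤ o b ∧ o b ≤ R) → (L ≤ o c ∧ o c ≤ R) → (L ≤ o d ∧ o d ≤ R) → o a < o b → o c < o d →
      ∃ a' b' c' d', Norm G p o S a' b' c' d' ∧ L ≤ o a' ∧ o d' ≤ R := by
    intro a b c d h ha hb hcS hd ba bb bc bd hab hcd
    obtain ⟨n1, n2, n3, n4, n5, n6⟩ := cross_ne hp h
    rcases lt_or_gt_of_ne (fun e : o a = o c => n3 (hc.1 e)) with hac | hac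
    · obtain ⟨g1, g2⟩ := inter_of_cross hp hc h hab hcd hac
      exact ⟨a, b, c, d, ⟨ha, hb, hcS, hd, h, hac, g1, g2⟩, ba.1, bd.2⟩
    · obtain ⟨g1, g2⟩ := inter_of_cross hp hc h.symm hcd hab hac
      exact ⟨c, d, a, b, ⟨hcS, hd, ha, hb, h.symm, hac, g1, g2⟩, bc.1, bb.2⟩
  obtain ⟨n1, n2, n3, n4, n5, n6⟩ := cross_ne hp h
  rcases lt_or_gt_of_ne (fun e : o a = o b => n1 (hc.1 e)) with hab | hab <;>
    rcases lt_or_gt_of_ne (fun e : o c = o d => n2 (hc.1 e)) with hcd | hcd
  · exact step a b c d h ha hb hcS hd ba bb bc bd hab hcd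
  · exact step a b d c h.swap' ha hb hd hcS ba bb bd bc hab hcd
  · exact step b a c d h.swap hb ha hcS hd bb ba bc bd hab hcd
  · exact step b a d c h.swap.swap' hb ha hd hcS bb ba bd bc hab hcd

/-- in convex position every set has a vertex with at most one crossed edge inside the set -/
theorem low_of_convex (hp : IsRac1 G p) {o : V → ℕ} (hc : ConvexPos p o) (S : Set V) (hS : S.Nonempty) :
    ∃ v ∈ S, Low G p S v := by
  classical
  by_cases hex : ∃ m, ∃ a b c d, Norm G p o S a b c d ∧ o d - o a = m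
  · obtain ⟨a, b, c, d, hN, hm⟩ := Nat.find_spec hex
    have hmin : ∀ a' b' c' d', Norm G p o S a' b' c' d' → o d - o a ≤ o d' - o a' := by
      intro a' b' c' d' h'
      rw [hm]
      exact Nat.find_min' hex ⟨a', b', c', d', h', rfl⟩
    obtain ⟨ha, hb, hcS, hd, hX, hac, hcb, hbd⟩ := hN
    obtain ⟨n1, n2, n3, n4, n5, n6⟩ := cross_ne hp.draw hX
    have hAab : G.Adj a b := by
      obtain ⟨x, hx⟩ := hX
      exact hx.1
    have hAcd : G.Adj c d := by
      obtain ⟨x, hx⟩ := hX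
      exact hx.2.1
    have hends : ∀ w ∈ ends G p S c, w = d := by
      rintro w ⟨hwS, x, hxS, y, hyS, hY⟩
      by_contra hwd
      obtain ⟨m1, m2, m3, m4, m5, m6⟩ := cross_ne hp.draw hY
      have hAcw : G.Adj c w := by
        obtain ⟨z, hz⟩ := hY
        exact hz.1
      have hAxy : G.Adj x y := by
        obtain ⟨z, hz⟩ := hY
        exact hz.2.1
      have hwnot : ¬ Cross G p a b c w := by
        intro hh
        have := partner_unique hp hh hX
        rw [Sym2.eq_iff] at this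
        rcases this with ⟨-, e⟩ | ⟨e, -⟩
        · exact hwd e
        · exact n2 e
      have hw1 : ¬ (o w < o a ∨ o b < o w) := fun hh => hwnot (cross_of_in_out hc hAab hAcw hac hcb hh)
      push Not at hw1
      have nxy : ∀ z z' : V, Cross G p c w z z' → ¬ Cross G p a b z z' := by
        intro z z' hz hh
        have := partner_unique hp hh hX
        obtain ⟨-, -, l3, l4, -, -⟩ := cross_ne hp.draw hz
        rw [Sym2.eq_iff] at this
        rcases this with ⟨e, -⟩ | ⟨-, e⟩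
        · exact l3 e.symm
        · exact l4 e.symm
      have nxy' : ∀ z z' : V, Cross G p c w z z' → ¬ Cross G p c d z z' := by
        intro z z' hz hh
        have := partner_unique hp hh hX.symm
        rw [Sym2.eq_iff] at this
        rcases this with ⟨e1, e2⟩ | ⟨e1, e2⟩
        · rw [e1, e2] at hz
          exact hwnot hz.symm
        · rw [e1, e2] at hz
          exact hwnot hz.swap'.symm
      -- the main case distinction, with `z` inside and `z'` outside
      have main : ∀ z z' : V, z ∈ S → z' ∈ S → Cross G p c w z z' →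
          (o c < o z ∧ o z < o w ∨ o w < o z ∧ o z < o c) → False := by
        intro z z' hz hz' hY' hin
        have hAz : G.Adj z z' := by
          obtain ⟨u, hu⟩ := hY'
          exact hu.2.1
        rcases hin with ⟨g1, g2⟩ | ⟨g1, g2⟩
        · have f1 : ¬ (o z' < o a ∨ o b < o z') := fun hh =>
            nxy z z' hY' (cross_of_in_out hc hAab hAz (by omega) (by omega) hh)
          have f2 : ¬ (o z' < o c ∨ o d < o z') := fun hh =>
            nxy' z z' hY' (cross_of_in_out hc hAcd hAz (by omega) (by omega) hh)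
          push Not at f1 f2
          obtain ⟨a', b', c', d', hN', hL, hR⟩ := norm_of (L := o c) (R := o b) hp.draw hc hY' hcS hwS hz hz'
            ⟨by omega, by omega⟩ ⟨by omega, by omega⟩ ⟨by omega, by omega⟩ ⟨by omega, by omega⟩
          have := hmin a' b' c' d' hN'
          omega
        · have f1 : ¬ (o z' < o a ∨ o b < o z') := fun hh =>
            nxy z z' hY' (cross_of_in_out hc hAab hAz (by omega) (by omega) hh)
          push Not at f1
          have f2 : ¬ (o c < o z') := fun hh =>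
            nxy' z z' hY' (cross_of_in_out hc hAcd hAz.symm hh (by omega) (Or.inl g2)).swap'
          obtain ⟨a', b', c', d', hN', hL, hR⟩ := norm_of (L := o a) (R := o c) hp.draw hc hY' hcS hwS hz hz'
            ⟨by omega, by omega⟩ ⟨by omega, by omega⟩ ⟨by omega, by omega⟩ ⟨by omega, by omega⟩
          have := hmin a' b' c' d' hN'
          omega
      rcases lt_or_gt_of_ne (fun e : o c = o w => m1 (hc.1 e)) with hcw | hcw
      · rcases in_out_of_cross hp.draw hc hY hcw with ⟨g1, g2, -⟩ | ⟨g1, g2, -⟩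
        · exact main x y hxS hyS hY (Or.inl ⟨g1, g2⟩)
        · exact main y x hyS hxS hY.swap' (Or.inl ⟨g1, g2⟩)
      · rcases in_out_of_cross hp.draw hc hY.swap hcw with ⟨g1, g2, -⟩ | ⟨g1, g2, -⟩
        · exact main x y hxS hyS hY (Or.inr ⟨g1, g2⟩)
        · exact main y x hyS hxS hY.swap' (Or.inr ⟨g1, g2⟩)
    refine ⟨c, hcS, fun x hx y hy z hz => Or.inl ?_, fun x hx y hy hxy => absurd ?_ hxy⟩
    · rw [hends x hx, hends y hy]
    · rw [hends x hx, hends y hy]
  · obtain ⟨v, hv⟩ := hS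
    have hno : ∀ w, w ∉ ends G p S v := by
      rintro w ⟨hwS, x, hxS, y, hyS, hY⟩
      apply hex
      obtain ⟨a', b', c', d', hN', -, -⟩ := norm_of (L := 0) (R := max (max (o v) (o w)) (max (o x) (o y)))
        hp.draw hc hY hv hwS hxS hyS
        ⟨Nat.zero_le _, by omega⟩ ⟨Nat.zero_le _, by omega⟩ ⟨Nat.zero_le _, by omega⟩ ⟨Nat.zero_le _, by omega⟩
      exact ⟨_, a', b', c', d', hN', rfl⟩
    exact ⟨v, hv, fun x hx => absurd hx (hno x), fun x hx => absurd hx (hno x)⟩

end Pool.Agent.LibRac44
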