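import Pool.Agent.LibRac44.Bip

/-! The two-coloured core and the levels above it. -/

namespace Pool.Agent.LibRac44

open Set Filter Topology

variable {V : Type*} {G : SimpleGraph V} {p : V → ℝ × ℝ}

/-- the colours at a crossing: one edge has two red ends, the other one has two ends that are not red -/
def RB (red : V → Prop) (a b c d : V) : Prop :=
  (red a ∧ red b ∧ ¬ red c ∧ ¬ red d) ∨ (¬ red a ∧ ¬ red b ∧ red c ∧ red d)

/-- the subgraph on the vertices of level zero -/
def G0 (G : SimpleGraph V) (r : V → ℕ) : SimpleGraph V where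
  Adj u v := G.Adj u v ∧ r u = 0 ∧ r v = 0
  symm := ⟨fun _ _ h => ⟨h.1.symm, h.2.2, h.2.1⟩⟩
  loopless := ⟨fun _ h => h.1.ne rfl⟩

lemma cross_G0 {r : V → ℕ} {a b c d : V} {x : ℝ × ℝ} (h : CrossAt (G0 G r) p a b c d x) : CrossAt G p a b c d x :=
  ⟨h.1.1, h.2.1.1, h.2.2⟩

lemma rac_G0 (hp : IsRac1 G p) (r : V → ℕ) : IsRac1 (G0 G r) p := by
  refine ⟨⟨hp.draw.inj, fun u v w h => hp.draw.vertex u v w h.1, fun a b c d h1 h2 => hp.draw.meet a b c d h1.1 h2.1⟩,
    fun a b c d h => ?_, fun a b c d c' d' x x' h h' => hp.one a b c d c' d' x x' (cross_G0 h) (cross_G0 h')⟩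
  obtain ⟨x, hx⟩ := h
  exact hp.right a b c d ⟨x, cross_G0 hx⟩

theorem levels_core [Fintype V] (hp : IsRac1 G p) (r : V → ℕ) (red : V → Prop)
    (h0 : ∀ a b c d, Cross G p a b c d → r a = 0 → r b = 0 → r c = 0 → r d = 0 → RB red a b c d)
    (hr : ∀ a b c d, Cross G p a b c d → 0 < max (r a) (r b) → max (r a) (r b) ≠ max (r c) (r d))
    (hs : ∀ n, 1 ≤ n → StressFree G p r n) (n : ℕ) :
    ∀ ε > 0, ∃ q : V → ℚ × ℚ, (∀ v, dist (cst (q v)) (p v) < ε) ∧
      ∀ a b c d, Cross G p a b c d → max (r a) (r b) < n + 1 → max (r c) (r d) < n + 1 →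
        dot (cst (q a) - cst (q b)) (cst (q c) - cst (q d)) = 0 := by
  induction n with
  | zero =>
    intro ε hε
    have hz : ∀ a b c d, Cross (G0 G r) p a b c d → r a = 0 ∧ r b = 0 ∧ r c = 0 ∧ r d = 0 := by
      intro a b c d h
      obtain ⟨x, hx⟩ := h
      exact ⟨hx.1.2.1, hx.1.2.2, hx.2.1.2.1, hx.2.1.2.2⟩
    obtain ⟨q, hq, hqc⟩ := level_bip (rac_G0 hp r) red (fun a b c d h => by
      obtain ⟨z1, z2, z3, z4⟩ := hz a b c d h
      obtain ⟨x, hx⟩ := h
      exact h0 a b c d ⟨x, cross_G0 hx⟩ z1 z2 z3 z4) hε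
    refine ⟨q, hq, fun a b c d h h1 h2 => ?_⟩
    have ha := le_max_left (r a) (r b)
    have hb := le_max_right (r a) (r b)
    have hc := le_max_left (r c) (r d)
    have hd := le_max_right (r c) (r d)
    have h' : Cross (G0 G r) p a b c d := by
      obtain ⟨x, hx⟩ := h
      exact ⟨x, ⟨hx.1, by omega, by omega⟩, ⟨hx.2.1, by omega, by omega⟩, hx.2.2⟩
    rcases h0 a b c d h (by omega) (by omega) (by omega) (by omega) with hc' | hc'
    · exact hqc a b c d h' hc'.1
    · have h5 := hqc c d a b h'.symm hc'.2.2.1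
      unfold dot at h5 ⊢
      linear_combination h5
  | succ n ih =>
    intro ε hε
    obtain ⟨δ, hδ, hstep⟩ := level_step hp r (n + 1) (hs (n + 1) (Nat.le_add_left 1 n)) hε
    obtain ⟨q, hq, hqc⟩ := ih δ hδ
    obtain ⟨q', h1, h2, h3⟩ := hstep q hq
    refine ⟨q', h2, fun a b c d h h4 h5 => ?_⟩
    rcases Nat.lt_or_ge (max (r a) (r b)) (n + 1) with h6 | h6
    · rcases Nat.lt_or_ge (max (r c) (r d)) (n + 1) with h7 | h7
      · have ha := le_max_left (r a) (r b)
        have hb := le_max_right (r a) (r b)
        have hc := le_max_left (r c) (r d)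
        have hd := le_max_right (r c) (r d)
        rw [h1 a (by omega), h1 b (by omega), h1 c (by omega), h1 d (by omega)]
        exact hqc a b c d h h6 h7
      · have h8 := h3 c d a b h.symm (by omega) h6
        unfold dot at h8 ⊢
        linear_combination h8
    · have hne := hr a b c d h (by omega)
      exact h3 a b c d h (by omega) (by omega)

theorem rational_core [Fintype V] (hp : IsRac1 G p) (r : V → ℕ) (red : V → Prop)
    (h0 : ∀ a b c d, Cross G p a b c d → r a = 0 → r b = 0 → r c = 0 → r d = 0 → RB red a b c d)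
    (hr : ∀ a b c d, Cross G p a b c d → 0 < max (r a) (r b) → max (r a) (r b) ≠ max (r c) (r d))
    (hs : ∀ n, 1 ≤ n → StressFree G p r n)
    {ε : ℝ} (hε : 0 < ε) : ∃ q : V → ℚ × ℚ, IsRac1 G (fun v => cst (q v)) ∧ (∀ v, dist (cst (q v)) (p v) < ε) ∧
      ∀ a b c d, Cross G (fun v => cst (q v)) a b c d ↔ Cross G p a b c d := by
  obtain ⟨ε', hε', hst⟩ := stable hp
  obtain ⟨N, hN⟩ : ∃ N, ∀ v, r v < N + 1 := by
    refine ⟨Finset.univ.sup r, fun v => Nat.lt_succ_of_le (Finset.le_sup (Finset.mem_univ v))⟩
  obtain ⟨q, h1, h2⟩ := levels_core hp r red h0 hr hs N (min ε ε') (lt_min hε hε')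
  obtain ⟨h3, h4⟩ := hst (fun v => cst (q v)) (fun v => (h1 v).trans_le (min_le_right _ _))
    (fun a b c d h => h2 a b c d h (max_lt (hN a) (hN b)) (max_lt (hN c) (hN d)))
  exact ⟨q, h3, fun v => (h1 v).trans_le (min_le_left _ _), h4⟩

/-- an order of the vertices outside the core -/
lemma exists_order_core [Fintype V] (S₀ : Set V) (h : ∀ S : Set V, ¬ S ⊆ S₀ → ∃ v ∈ S, v ∉ S₀ ∧ Low G p S v) :
    ∃ r : V → ℕ, (∀ v, r v = 0 ↔ v ∈ S₀) ∧ (∀ u v, 0 < r u → r u = r v → u = v) ∧
      ∀ v, 0 < r v → Low G p {u | r u ≤ r v} v := by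
  classical
  have key : ∀ n : ℕ, ∀ T : Finset V, (∀ v ∈ T, v ∉ S₀) → T.card = n → ∃ r : V → ℕ,
      (∀ u ∈ T, ∀ v ∈ T, r u = r v → u = v) ∧ (∀ u ∈ T, 0 < r u ∧ r u ≤ n) ∧
      ∀ v ∈ T, Low G p {u | u ∈ S₀ ∨ (u ∈ T ∧ r u ≤ r v)} v := by
    intro n
    induction n with
    | zero =>
      intro T _ hT
      have hT' := Finset.card_eq_zero.1 hT
      subst hT'
      exact ⟨fun _ => 0, fun u hu => absurd hu (Finset.notMem_empty u), fun u hu => absurd hu (Finset.notMem_empty u),
        fun u hu => absurd hu (Finset.notMem_empty u)⟩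
    | succ n ih =>
      intro T hT0 hT
      obtain ⟨w0, hw0⟩ : T.Nonempty := by
        rw [← Finset.card_pos, hT]
        exact Nat.succ_pos n
      obtain ⟨v, hv, hvS, hlow⟩ := h (S₀ ∪ (T : Set V)) (fun hsub => hT0 w0 hw0 (hsub (Or.inr hw0)))
      have hvT : v ∈ T := by
        rcases hv with hv | hv
        · exact absurd hv hvS
        · exact hv
      obtain ⟨r, h1, h2, h3⟩ := ih (T.erase v) (fun w hw => hT0 w (Finset.mem_of_mem_erase hw))
        (by rw [Finset.card_erase_of_mem hvT, hT, Nat.add_sub_cancel])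
      refine ⟨fun u => if u = v then n + 1 else r u, ?_, ?_, ?_⟩
      · intro u hu w hw huw
        beta_reduce at huw
        by_cases e1 : u = v
        · by_cases e2 : w = v
          · rw [e1, e2]
          · rw [if_pos e1, if_neg e2] at huw
            have := h2 w (Finset.mem_erase.2 ⟨e2, hw⟩)
            omega
        · by_cases e2 : w = v
          · rw [if_neg e1, if_pos e2] at huw
            have := h2 u (Finset.mem_erase.2 ⟨e1, hu⟩)
            omega
          · rw [if_neg e1, if_neg e2] at huw
            exact h1 u (Finset.mem_erase.2 ⟨e1, hu⟩) w (Finset.mem_erase.2 ⟨e2, hw⟩) huw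
      · intro u hu
        beta_reduce
        by_cases e1 : u = v
        · rw [if_pos e1]
          omega
        · rw [if_neg e1]
          have := h2 u (Finset.mem_erase.2 ⟨e1, hu⟩)
          omega
      · intro w hw
        by_cases e2 : w = v
        · subst e2
          have hset : {u | u ∈ S₀ ∨ (u ∈ T ∧ (if u = w then n + 1 else r u) ≤ (if w = w then n + 1 else r w))} =
              S₀ ∪ (T : Set V) := by
            ext u
            rw [if_pos rfl]
            simp only [Set.mem_setOf_eq, Set.mem_union, Finset.mem_coe]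
            constructor
            · rintro (h5 | ⟨h5, -⟩)
              · exact Or.inl h5
              · exact Or.inr h5
            · rintro (h5 | h5)
              · exact Or.inl h5
              · refine Or.inr ⟨h5, ?_⟩
                by_cases e1 : u = w
                · rw [if_pos e1]
                · rw [if_neg e1]
                  have := h2 u (Finset.mem_erase.2 ⟨e1, h5⟩)
                  omega
          rw [hset]
          exact hlow
        · have hset : {u | u ∈ S₀ ∨ (u ∈ T ∧ (if u = v then n + 1 else r u) ≤ (if w = v then n + 1 else r w))} =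
              {u | u ∈ S₀ ∨ (u ∈ T.erase v ∧ r u ≤ r w)} := by
            ext u
            rw [if_neg e2]
            simp only [Set.mem_setOf_eq, Finset.mem_erase]
            by_cases e1 : u = v
            · rw [if_pos e1]
              have := h2 w (Finset.mem_erase.2 ⟨e2, hw⟩)
              constructor
              · rintro (h5 | ⟨-, h5⟩)
                · exact Or.inl h5
                · omega
              · rintro (h5 | ⟨⟨h5, -⟩, -⟩)
                · exact Or.inl h5
                · exact absurd e1 h5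
            · rw [if_neg e1]
              constructor
              · rintro (h5 | ⟨h5, h6⟩)
                · exact Or.inl h5
                · exact Or.inr ⟨⟨e1, h5⟩, h6⟩
              · rintro (h5 | ⟨⟨-, h5⟩, h6⟩)
                · exact Or.inl h5
                · exact Or.inr ⟨h5, h6⟩
          rw [hset]
          exact h3 w (Finset.mem_erase.2 ⟨e2, hw⟩)
  obtain ⟨r, h1, h2, h3⟩ := key _ (Finset.univ.filter (fun v => v ∉ S₀))
    (fun v hv => (Finset.mem_filter.1 hv).2) rfl
  have hm : ∀ v, v ∉ S₀ → v ∈ Finset.univ.filter (fun v => v ∉ S₀) := fun v hv =>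
    Finset.mem_filter.2 ⟨Finset.mem_univ v, hv⟩
  refine ⟨fun v => if v ∈ S₀ then 0 else r v, ?_, ?_, ?_⟩
  · intro v
    beta_reduce
    by_cases hv : v ∈ S₀
    · rw [if_pos hv]
      exact ⟨fun _ => hv, fun _ => rfl⟩
    · rw [if_neg hv]
      have := (h2 v (hm v hv)).1
      exact ⟨fun h5 => by omega, fun h5 => absurd h5 hv⟩
  · intro u v hu huv
    beta_reduce at hu huv
    by_cases e1 : u ∈ S₀
    · rw [if_pos e1] at hu
      exact absurd hu (lt_irrefl 0)
    · by_cases e2 : v ∈ S₀
      · rw [if_neg e1, if_pos e2] at huv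
        have := (h2 u (hm u e1)).1
        omega
      · rw [if_neg e1, if_neg e2] at huv
        exact h1 u (hm u e1) v (hm v e2) huv
  · intro v hv
    beta_reduce at hv
    by_cases e1 : v ∈ S₀
    · rw [if_pos e1] at hv
      exact absurd hv (lt_irrefl 0)
    · have h4 := h3 v (hm v e1)
      have hset : {u | (if u ∈ S₀ then 0 else r u) ≤ (if v ∈ S₀ then 0 else r v)} =
          {u | u ∈ S₀ ∨ (u ∈ Finset.univ.filter (fun v => v ∉ S₀) ∧ r u ≤ r v)} := by
        ext u
        rw [if_neg e1]
        simp only [Set.mem_setOf_eq, Finset.mem_filter, Finset.mem_univ, true_and]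
        by_cases e2 : u ∈ S₀
        · rw [if_pos e2]
          exact ⟨fun _ => Or.inl e2, fun _ => Nat.zero_le _⟩
        · rw [if_neg e2]
          constructor
          · intro h5
            exact Or.inr ⟨e2, h5⟩
          · rintro (h5 | h5)
            · exact absurd h5 e2
            · exact h5.2
      rw [hset]
      exact h4

/-- a two-coloured core, and a two-degenerate rest -/
theorem rational_low_core [Fintype V] (hp : IsRac1 G p) (S₀ : Set V) (red : V → Prop)
    (h0 : ∀ a b c d, Cross G p a b c d → a ∈ S₀ → b ∈ S₀ → c ∈ S₀ → d ∈ S₀ → RB red a b c d)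
    (h : ∀ S : Set V, ¬ S ⊆ S₀ → ∃ v ∈ S, v ∉ S₀ ∧ Low G p S v)
    {ε : ℝ} (hε : 0 < ε) : ∃ q : V → ℚ × ℚ, IsRac1 G (fun v => cst (q v)) ∧ (∀ v, dist (cst (q v)) (p v) < ε) ∧
      ∀ a b c d, Cross G (fun v => cst (q v)) a b c d ↔ Cross G p a b c d := by
  classical
  obtain ⟨r, hzero, hinj, hlow⟩ := exists_order_core S₀ h
  refine rational_core hp r red ?_ ?_ ?_ hε
  · intro a b c d hX ha hb hc hd
    exact h0 a b c d hX ((hzero a).1 ha) ((hzero b).1 hb) ((hzero c).1 hc) ((hzero d).1 hd)
  · intro a b c d hc hpos heq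
    obtain ⟨h1, h2, h3, h4, h5, h6⟩ := cross_ne hp.draw hc
    rcases max_choice (r a) (r b) with e1 | e1 <;> rcases max_choice (r c) (r d) with e2 | e2 <;>
      rw [e1] at hpos <;> rw [e1, e2] at heq
    · exact h3 (hinj _ _ hpos heq)
    · exact h4 (hinj _ _ hpos heq)
    · exact h5 (hinj _ _ hpos heq)
    · exact h6 (hinj _ _ hpos heq)
  · intro n hn ω hsym hact heq
    have hv : ∀ v w, r v = n → ω v w ≠ 0 → w ∈ ends G p {u | r u ≤ r v} v := by
      intro v w hvn h0'
      obtain ⟨h1, c, d, h2, h3⟩ := hact v w h0'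
      have hw := le_max_right (r v) (r w)
      have hc := le_max_left (r c) (r d)
      have hd := le_max_right (r c) (r d)
      exact ⟨show r w ≤ r v by omega, c, show r c ≤ r v by omega, d, show r d ≤ r v by omega, h2⟩
    have hz : ∀ v w, r v = n → ω v w = 0 := by
      intro v w hvn
      by_contra h0'
      have hlv := hlow v (by omega)
      have hw := hv v w hvn h0'
      have hadj : G.Adj v w := by
        obtain ⟨-, c, -, d, -, x, hx⟩ := hw
        exact hx.1
      have hpw : p w - p v ≠ 0 := fun e => hadj.ne (hp.draw.inj (sub_eq_zero.1 e)).symm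
      have hsum := heq v hvn
      by_cases h2 : ∃ z, z ≠ w ∧ ω v z ≠ 0
      · obtain ⟨z, hzw, hz0⟩ := h2
        have hz := hv v z hvn hz0
        have h3 : ∑ u, ω v u • (p u - p v) = ω v w • (p w - p v) + ω v z • (p z - p v) := by
          rw [← Finset.sum_subset (Finset.subset_univ ({w, z} : Finset V))]
          · rw [Finset.sum_pair hzw.symm]
          · intro u _ hu
            have hu1 : u ≠ w := fun e => hu (by rw [e]; exact Finset.mem_insert_self _ _)
            have hu2 : u ≠ z := fun e => hu (by rw [e]; exact Finset.mem_insert_of_mem (Finset.mem_singleton_self _))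
            have hu0 : ω v u = 0 := by
              by_contra h4
              rcases hlv.1 u (hv v u hvn h4) w hw z hz with e | e | e
              · exact hu1 e
              · exact hu2 e
              · exact hzw e.symm
            rw [hu0, zero_smul]
        have h4 := hlv.2 w hw z hz hzw.symm
        rw [h3] at hsum
        apply h4
        have g1 := congrArg Prod.fst hsum
        have g2 := congrArg Prod.snd hsum
        simp only [Prod.fst_add, Prod.snd_add, Prod.smul_fst, Prod.smul_snd, smul_eq_mul, Prod.fst_zero,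
          Prod.snd_zero] at g1 g2
        unfold det2
        apply mul_left_cancel₀ h0'
        linear_combination (p z - p v).2 * g1 - (p z - p v).1 * g2
      · push Not at h2
        have h3 : ∑ u, ω v u • (p u - p v) = ω v w • (p w - p v) := by
          rw [Finset.sum_eq_single w]
          · intro u _ hu
            rw [h2 u hu, zero_smul]
          · intro h'
            exact absurd (Finset.mem_univ _) h'
        rw [h3] at hsum
        rcases smul_eq_zero.1 hsum with h4 | h4
        · exact h0' h4
        · exact hpw h4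
    intro a b
    by_contra h0'
    obtain ⟨h1, -⟩ := hact a b h0'
    rcases max_choice (r a) (r b) with e | e
    · exact h0' (hz a b (by omega))
    · exact h0' (by rw [hsym]; exact hz b a (by omega))

end Pool.Agent.LibRac44
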