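import Pool.Agent.LibRac44.Main

/-! Two-degenerate crossing structures. -/

namespace Pool.Agent.LibRac44

open Set Filter Topology

variable {V : Type*} {G : SimpleGraph V} {p : V → ℝ × ℝ}

/-- the ends `w ≠ v` of the edges at `v` that cross another edge, all four ends being in `S` -/
def ends (G : SimpleGraph V) (p : V → ℝ × ℝ) (S : Set V) (v : V) : Set V :=
  {w | w ∈ S ∧ ∃ c ∈ S, ∃ d ∈ S, Cross G p v w c d}

/-- at most two edges at `v` take part in crossings inside `S`, and if there are two, they are not on
a line -/
def Low (G : SimpleGraph V) (p : V → ℝ × ℝ) (S : Set V) (v : V) : Prop :=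
  (∀ x ∈ ends G p S v, ∀ y ∈ ends G p S v, ∀ z ∈ ends G p S v, x = y ∨ x = z ∨ y = z) ∧
    ∀ x ∈ ends G p S v, ∀ y ∈ ends G p S v, x ≠ y → det2 (p x - p v) (p y - p v) ≠ 0

/-- an order of the vertices -/
lemma exists_order [Fintype V] (h : ∀ S : Set V, S.Nonempty → ∃ v ∈ S, Low G p S v) :
    ∃ r : V → ℕ, Function.Injective r ∧ ∀ v, Low G p {u | r u ≤ r v} v := by
  classical
  -- order a finite set
  have key : ∀ n : ℕ, ∀ S : Finset V, S.card = n → ∃ r : V → ℕ, (∀ u ∈ S, ∀ v ∈ S, r u = r v → u = v) ∧
      (∀ u ∈ S, r u < n) ∧ ∀ v ∈ S, Low G p {u | u ∈ S ∧ r u ≤ r v} v := by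
    intro n
    induction n with
    | zero =>
      intro S hS
      have hS' := Finset.card_eq_zero.1 hS
      subst hS'
      exact ⟨fun _ => 0, fun u hu => absurd hu (Finset.notMem_empty u), fun u hu => absurd hu (Finset.notMem_empty u),
        fun u hu => absurd hu (Finset.notMem_empty u)⟩
    | succ n ih =>
      intro S hS
      have hne : (S : Set V).Nonempty := by
        rw [Finset.coe_nonempty, ← Finset.card_pos, hS]
        exact Nat.succ_pos n
      obtain ⟨v, hv, hlow⟩ := h (S : Set V) hne
      have hvS : v ∈ S := hv
      obtain ⟨r, h1, h2, h3⟩ := ih (S.erase v) (by rw [Finset.card_erase_of_mem hvS, hS, Nat.add_sub_cancel])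
      refine ⟨fun u => if u = v then n else r u, ?_, ?_, ?_⟩
      · intro u hu w hw huw
        beta_reduce at huw
        by_cases e1 : u = v
        · by_cases e2 : w = v
          · rw [e1, e2]
          · rw [if_pos e1, if_neg e2] at huw
            have := h2 w (Finset.mem_erase.2 ⟨e2, hw⟩)
            omega
        · by_cases e2 : w = v
          · rw [if_neg e1, if_pos e2] at huw
            have := h2 u (Finset.mem_erase.2 ⟨e1, hu⟩)
            omega
          · rw [if_neg e1, if_neg e2] at huw
            exact h1 u (Finset.mem_erase.2 ⟨e1, hu⟩) w (Finset.mem_erase.2 ⟨e2, hw⟩) huw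
      · intro u hu
        beta_reduce
        by_cases e1 : u = v
        · rw [if_pos e1]
          exact Nat.lt_succ_self n
        · rw [if_neg e1]
          have := h2 u (Finset.mem_erase.2 ⟨e1, hu⟩)
          omega
      · intro w hw
        by_cases e2 : w = v
        · subst e2
          have hset : {u | u ∈ S ∧ (if u = w then n else r u) ≤ (if w = w then n else r w)} = (S : Set V) := by
            ext u
            rw [if_pos rfl]
            simp only [Set.mem_setOf_eq, Finset.mem_coe, and_iff_left_iff_imp]
            intro hu
            by_cases e1 : u = w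
            · rw [if_pos e1]
            · rw [if_neg e1]
              exact (h2 u (Finset.mem_erase.2 ⟨e1, hu⟩)).le
          rw [hset]
          exact hlow
        · have hset : {u | u ∈ S ∧ (if u = v then n else r u) ≤ (if w = v then n else r w)} =
              {u | u ∈ S.erase v ∧ r u ≤ r w} := by
            ext u
            rw [if_neg e2]
            simp only [Set.mem_setOf_eq, Finset.mem_erase]
            by_cases e1 : u = v
            · rw [if_pos e1]
              have := h2 w (Finset.mem_erase.2 ⟨e2, hw⟩)
              constructor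
              · rintro ⟨-, h5⟩
                omega
              · rintro ⟨⟨h5, -⟩, -⟩
                exact absurd e1 h5
            · rw [if_neg e1]
              constructor
              · rintro ⟨h5, h6⟩
                exact ⟨⟨e1, h5⟩, h6⟩
              · rintro ⟨⟨-, h5⟩, h6⟩
                exact ⟨h5, h6⟩
          rw [hset]
          exact h3 w (Finset.mem_erase.2 ⟨e2, hw⟩)
  obtain ⟨r, h1, -, h3⟩ := key _ Finset.univ rfl
  refine ⟨r, fun u v huv => h1 u (Finset.mem_univ u) v (Finset.mem_univ v) huv, fun v => ?_⟩
  have h4 := h3 v (Finset.mem_univ v)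
  have hset : {u | u ∈ (Finset.univ : Finset V) ∧ r u ≤ r v} = {u | r u ≤ r v} := by
    ext u
    simp
  rw [hset] at h4
  exact h4

/-- the two-degenerate case -/
theorem rational_low [Fintype V] (hp : IsRac1 G p) (h : ∀ S : Set V, S.Nonempty → ∃ v ∈ S, Low G p S v)
    {ε : ℝ} (hε : 0 < ε) : ∃ q : V → ℚ × ℚ, IsRac1 G (fun v => cst (q v)) ∧ (∀ v, dist (cst (q v)) (p v) < ε) ∧
      ∀ a b c d, Cross G (fun v => cst (q v)) a b c d ↔ Cross G p a b c d := by
  classical
  obtain ⟨r, hinj, hlow⟩ := exists_order h
  refine rational hp r ?_ ?_ hε
  · intro a b c d hc heq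
    obtain ⟨h1, h2, h3, h4, h5, h6⟩ := cross_ne hp.draw hc
    rcases max_choice (r a) (r b) with e1 | e1 <;> rcases max_choice (r c) (r d) with e2 | e2 <;>
      rw [e1, e2] at heq
    · exact h3 (hinj heq)
    · exact h4 (hinj heq)
    · exact h5 (hinj heq)
    · exact h6 (hinj heq)
  · intro n ω hsym hact heq
    -- all stresses at a vertex of level `n`
    have hv : ∀ v w, r v = n → ω v w ≠ 0 → w ∈ ends G p {u | r u ≤ r v} v := by
      intro v w hvn h0
      obtain ⟨h1, c, d, h2, h3⟩ := hact v w h0
      have hw := le_max_right (r v) (r w)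
      have hc := le_max_left (r c) (r d)
      have hd := le_max_right (r c) (r d)
      exact ⟨show r w ≤ r v by omega, c, show r c ≤ r v by omega, d, show r d ≤ r v by omega, h2⟩
    have hzero : ∀ v w, r v = n → ω v w = 0 := by
      intro v w hvn
      by_contra h0
      have hw := hv v w hvn h0
      have hadj : G.Adj v w := by
        obtain ⟨-, c, -, d, -, x, hx⟩ := hw
        exact hx.1
      have hpw : p w - p v ≠ 0 := fun e => hadj.ne (hp.draw.inj (sub_eq_zero.1 e)).symm
      have hsum := heq v hvn
      by_cases h2 : ∃ z, z ≠ w ∧ ω v z ≠ 0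
      · obtain ⟨z, hzw, hz0⟩ := h2
        have hz := hv v z hvn hz0
        have h3 : ∑ u, ω v u • (p u - p v) = ω v w • (p w - p v) + ω v z • (p z - p v) := by
          rw [← Finset.sum_subset (Finset.subset_univ ({w, z} : Finset V))]
          · rw [Finset.sum_pair hzw.symm]
          · intro u _ hu
            have hu1 : u ≠ w := fun e => hu (by rw [e]; exact Finset.mem_insert_self _ _)
            have hu2 : u ≠ z := fun e => hu (by rw [e]; exact Finset.mem_insert_of_mem (Finset.mem_singleton_self _))
            have hu0 : ω v u = 0 := by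
              by_contra h4
              rcases (hlow v).1 u (hv v u hvn h4) w hw z hz with e | e | e
              · exact hu1 e
              · exact hu2 e
              · exact hzw e.symm
            rw [hu0, zero_smul]
        have h4 := (hlow v).2 w hw z hz hzw.symm
        rw [h3] at hsum
        apply h4
        have g1 := congrArg Prod.fst hsum
        have g2 := congrArg Prod.snd hsum
        simp only [Prod.fst_add, Prod.snd_add, Prod.smul_fst, Prod.smul_snd, smul_eq_mul, Prod.fst_zero,
          Prod.snd_zero] at g1 g2
        unfold det2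
        apply mul_left_cancel₀ h0
        linear_combination (p z - p v).2 * g1 - (p z - p v).1 * g2
      · push Not at h2
        have h3 : ∑ u, ω v u • (p u - p v) = ω v w • (p w - p v) := by
          rw [Finset.sum_eq_single w]
          · intro u _ hu
            rw [h2 u hu, zero_smul]
          · intro h'
            exact absurd (Finset.mem_univ _) h'
        rw [h3] at hsum
        rcases smul_eq_zero.1 hsum with h4 | h4
        · exact h0 h4
        · exact hpw h4
    intro a b
    by_contra h0
    obtain ⟨h1, -⟩ := hact a b h0
    rcases max_choice (r a) (r b) with e | e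
    · exact h0 (hzero a b (by omega))
    · exact h0 (by rw [hsym]; exact hzero b a (by omega))

end Pool.Agent.LibRac44
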