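import Pool.Agent.LibRac44.Deg

/-! Scaling, and integer coordinates. -/

namespace Pool.Agent.LibRac44

open Set

variable {V : Type*} {G : SimpleGraph V} {p : V → ℝ × ℝ}

/-- scaling a 1-planar RAC-drawing -/
lemma IsRac1.smul (hp : IsRac1 G p) {t : ℝ} (ht : t ≠ 0) : IsRac1 G (fun v => t • p v) := by
  have hseg : ∀ A B x : ℝ × ℝ, x ∈ segment ℝ (t • A) (t • B) → t⁻¹ • x ∈ segment ℝ A B := by
    intro A B x hx
    obtain ⟨s, h0, h1, rfl⟩ := mem_seg.1 hx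
    refine mem_seg.2 ⟨s, h0, h1, ?_⟩
    rw [smul_add, smul_smul, inv_mul_cancel₀ ht, one_smul, ← smul_sub, smul_comm s t, smul_smul t⁻¹,
      inv_mul_cancel₀ ht, one_smul]
  have hos : ∀ A B x : ℝ × ℝ, x ∈ openSegment ℝ (t • A) (t • B) → t⁻¹ • x ∈ openSegment ℝ A B := by
    intro A B x hx
    obtain ⟨s, h0, h1, rfl⟩ := mem_oseg.1 hx
    refine mem_oseg.2 ⟨s, h0, h1, ?_⟩
    rw [smul_add, smul_smul, inv_mul_cancel₀ ht, one_smul, ← smul_sub, smul_comm s t, smul_smul t⁻¹,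
      inv_mul_cancel₀ ht, one_smul]
  have hinv : ∀ x y : ℝ × ℝ, t⁻¹ • x = t⁻¹ • y → x = y := by
    intro x y h
    have h1 := congrArg (fun z => t • z) h
    simp only [smul_smul, mul_inv_cancel₀ ht, one_smul] at h1
    exact h1
  have hcr : ∀ a b c d x, CrossAt G (fun v => t • p v) a b c d x → CrossAt G p a b c d (t⁻¹ • x) := by
    rintro a b c d x ⟨h1, h2, h3, h4, h5⟩
    exact ⟨h1, h2, h3, hos _ _ _ h4, hos _ _ _ h5⟩
  refine ⟨⟨?_, ?_, ?_⟩, ?_, ?_⟩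
  · intro a b hab
    have h1 : t • p a = t • p b := hab
    have h2 := congrArg (fun z => t⁻¹ • z) h1
    simp only [smul_smul, inv_mul_cancel₀ ht, one_smul] at h2
    exact hp.draw.inj h2
  · intro u v w h1 h2 h3 h4
    have h5 := hseg _ _ _ h4
    rw [smul_smul, inv_mul_cancel₀ ht, one_smul] at h5
    exact hp.draw.vertex u v w h1 h2 h3 h5
  · intro a b c d h1 h2 h3 x hx y hy
    exact hinv x y (hp.draw.meet a b c d h1 h2 h3 ⟨hseg _ _ _ hx.1, hseg _ _ _ hx.2⟩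
      ⟨hseg _ _ _ hy.1, hseg _ _ _ hy.2⟩)
  · rintro a b c d ⟨x, hx⟩
    have h1 := hp.right a b c d ⟨_, hcr _ _ _ _ _ hx⟩
    unfold dot at h1 ⊢
    simp only [Prod.fst_sub, Prod.snd_sub, Prod.smul_fst, Prod.smul_snd, smul_eq_mul] at h1 ⊢
    linear_combination t * t * h1
  · intro a b c d c' d' x x' h h'
    exact hinv x x' (hp.one a b c d c' d' _ _ (hcr _ _ _ _ _ h) (hcr _ _ _ _ _ h'))

/-- a rational drawing gives one with integer coordinates -/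
lemma exists_grid [Fintype V] (q : V → ℚ × ℚ) (hq : IsRac1 G (fun v => cst (q v))) :
    ∃ g : V → ℤ × ℤ, IsRac1 G (fun v => (((g v).1 : ℝ), ((g v).2 : ℝ))) := by
  classical
  let N : ℕ := ∏ v, ((q v).1.den * (q v).2.den)
  have hN : (N : ℝ) ≠ 0 := by
    rw [Nat.cast_ne_zero]
    exact Finset.prod_ne_zero_iff.2 (fun v _ => Nat.mul_ne_zero (q v).1.den_nz (q v).2.den_nz)
  have hint : ∀ x : ℚ, x.den ∣ N → ∃ z : ℤ, (N : ℝ) * (x : ℝ) = z := by
    intro x hx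
    obtain ⟨k, hk⟩ := hx
    refine ⟨k * x.num, ?_⟩
    rw [hk]
    have h1 : ((x : ℚ) : ℝ) = (x.num : ℝ) / (x.den : ℝ) := by
      exact Rat.cast_def x
    have h2 : (x.den : ℝ) ≠ 0 := Nat.cast_ne_zero.2 x.den_nz
    rw [h1]
    push_cast
    field_simp
  have hd : ∀ v, (q v).1.den ∣ N ∧ (q v).2.den ∣ N := by
    intro v
    have h1 : (q v).1.den * (q v).2.den ∣ N :=
      Finset.dvd_prod_of_mem (fun v => (q v).1.den * (q v).2.den) (Finset.mem_univ v)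
    exact ⟨(Dvd.intro _ rfl).trans h1, (Dvd.intro_left _ rfl).trans h1⟩
  have hz : ∀ v, ∃ g : ℤ × ℤ, (N : ℝ) • cst (q v) = (((g).1 : ℝ), ((g).2 : ℝ)) := by
    intro v
    obtain ⟨z1, h1⟩ := hint _ (hd v).1
    obtain ⟨z2, h2⟩ := hint _ (hd v).2
    refine ⟨(z1, z2), Prod.ext ?_ ?_⟩
    · show (N : ℝ) * ((q v).1 : ℝ) = (z1 : ℝ)
      exact h1
    · show (N : ℝ) * ((q v).2 : ℝ) = (z2 : ℝ)
      exact h2
  choose g hg using hz
  refine ⟨g, ?_⟩
  have h1 := hq.smul hN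
  have h2 : (fun v => (N : ℝ) • cst (q v)) = (fun v => (((g v).1 : ℝ), ((g v).2 : ℝ))) := funext hg
  rw [← h2]
  exact h1

end Pool.Agent.LibRac44
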