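import Pool.Agent.LibRac44.Stable

/-! Rational solutions of linear systems near a real system with independent rows. -/

namespace Pool.Agent.LibRac44

open Set Filter Topology Matrix

/-- rational solutions of a perturbed linear system with independent rows -/
lemma la {ι κ : Type*} [Fintype ι] [Fintype κ] [DecidableEq ι] (M₀ : ι → κ → ℝ)
    (h : ∀ l : ι → ℝ, (∀ k, ∑ i, l i * M₀ i k = 0) → l = 0) {ε : ℝ} (hε : 0 < ε) :
    ∃ δ > 0, ∀ (M : ι → κ → ℚ) (s : ι → ℚ), (∀ i k, |(M i k : ℝ) - M₀ i k| < δ) → (∀ i, |(s i : ℝ)| < δ) →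
      ∃ y : κ → ℚ, (∀ k, |(y k : ℝ)| < ε) ∧ ∀ i, ∑ k, M i k * y k = s i := by
  let dn : (ι → κ → ℝ) × (ι → ℝ) → ℝ := fun z => (Matrix.of z.1 * (Matrix.of z.1)ᵀ).det
  let F : (ι → κ → ℝ) × (ι → ℝ) → (κ → ℝ) := fun z =>
    (dn z)⁻¹ • ((Matrix.of z.1)ᵀ.mulVec ((Matrix.of z.1 * (Matrix.of z.1)ᵀ).adjugate.mulVec z.2))
  let z0 : (ι → κ → ℝ) × (ι → ℝ) := (M₀, 0)
  have cN : Continuous (fun z : (ι → κ → ℝ) × (ι → ℝ) => Matrix.of z.1 * (Matrix.of z.1)ᵀ) := by
    have c1 : Continuous (fun z : (ι → κ → ℝ) × (ι → ℝ) => Matrix.of z.1) := by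
      exact continuous_fst
    exact c1.matrix_mul c1.matrix_transpose
  have cdn : Continuous dn := cN.matrix_det
  have cF2 : Continuous (fun z : (ι → κ → ℝ) × (ι → ℝ) =>
      (Matrix.of z.1)ᵀ.mulVec ((Matrix.of z.1 * (Matrix.of z.1)ᵀ).adjugate.mulVec z.2)) := by
    have c1 : Continuous (fun z : (ι → κ → ℝ) × (ι → ℝ) => Matrix.of z.1) := by
      exact continuous_fst
    exact c1.matrix_transpose.matrix_mulVec (cN.matrix_adjugate.matrix_mulVec continuous_snd)
  have hd0 : dn z0 ≠ 0 := by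
    intro h0
    obtain ⟨v, hv, hv0⟩ := Matrix.exists_mulVec_eq_zero_iff.2 h0
    apply hv
    apply h
    have h1 : (Matrix.of M₀)ᵀ.mulVec v = 0 := by
      have h2 : (Matrix.of M₀).mulVec ((Matrix.of M₀)ᵀ.mulVec v) = 0 := by
        rw [Matrix.mulVec_mulVec]
        exact hv0
      have h3 : dotProduct ((Matrix.of M₀)ᵀ.mulVec v) ((Matrix.of M₀)ᵀ.mulVec v) = 0 := by
        rw [Matrix.dotProduct_mulVec, Matrix.vecMul_transpose, h2, zero_dotProduct]
      exact dotProduct_self_eq_zero.1 h3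
    intro k
    have h4 := congrFun h1 k
    simp only [Matrix.mulVec, dotProduct, Matrix.transpose_apply, Matrix.of_apply, Pi.zero_apply] at h4
    rw [← h4]
    exact Finset.sum_congr rfl (fun i _ => mul_comm _ _)
  have cF : ContinuousAt F z0 := (cdn.continuousAt.inv₀ hd0).smul cF2.continuousAt
  have hF0 : F z0 = 0 := by
    show (dn z0)⁻¹ • ((Matrix.of M₀)ᵀ.mulVec ((Matrix.of M₀ * (Matrix.of M₀)ᵀ).adjugate.mulVec (0 : ι → ℝ))) = 0
    rw [Matrix.mulVec_zero, Matrix.mulVec_zero, smul_zero]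
  have e1 : ∀ᶠ z in 𝓝 z0, ∀ k, |F z k| < ε := by
    rw [Filter.eventually_all]
    intro k
    have c3 : ContinuousAt (fun z => |F z k|) z0 := by
      have c4 : ContinuousAt (fun z => F z k) z0 := (continuousAt_pi.1 cF) k
      exact c4.abs
    exact c3.eventually_lt continuousAt_const (by rw [hF0]; simpa using hε)
  have e2 : ∀ᶠ z in 𝓝 z0, dn z ≠ 0 := cdn.continuousAt.eventually_ne hd0
  obtain ⟨δ, hδ, hball⟩ := Metric.eventually_nhds_iff.1 (e1.and e2)
  refine ⟨δ, hδ, fun M s hM hs => ?_⟩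
  obtain ⟨f1, f2⟩ := @hball (fun i k => (M i k : ℝ), fun i => (s i : ℝ)) (by
    rw [Prod.dist_eq]
    apply max_lt
    · rw [dist_pi_lt_iff hδ]
      intro i
      rw [dist_pi_lt_iff hδ]
      intro k
      rw [Real.dist_eq]
      exact hM i k
    · rw [dist_pi_lt_iff hδ]
      intro i
      rw [Real.dist_eq]
      show |(s i : ℝ) - 0| < δ
      rw [sub_zero]
      exact hs i)
  let c := Rat.castHom ℝ
  let N : Matrix ι ι ℚ := Matrix.of M * (Matrix.of M)ᵀ
  have hM' : (Matrix.of M).map c = Matrix.of (fun i k => (M i k : ℝ)) := by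
    ext i k
    rfl
  have hN : N.map c = Matrix.of (fun i k => (M i k : ℝ)) * (Matrix.of (fun i k => (M i k : ℝ)))ᵀ := by
    show (Matrix.of M * (Matrix.of M)ᵀ).map c = _
    rw [Matrix.map_mul, Matrix.transpose_map, hM']
  have hdet : (N.det : ℝ) = dn (fun i k => (M i k : ℝ), fun i => (s i : ℝ)) := by
    have h1 := RingHom.map_det c N
    rw [RingHom.mapMatrix_apply, hN] at h1
    exact h1
  have hadj : N.adjugate.map c = (Matrix.of (fun i k => (M i k : ℝ)) *
      (Matrix.of (fun i k => (M i k : ℝ)))ᵀ).adjugate := by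
    have h1 := RingHom.map_adjugate c N
    rw [RingHom.mapMatrix_apply, RingHom.mapMatrix_apply, hN] at h1
    exact h1
  have hne : N.det ≠ 0 := by
    intro h0
    apply f2
    rw [← hdet, h0, Rat.cast_zero]
  let y : κ → ℚ := (N.det)⁻¹ • ((Matrix.of M)ᵀ.mulVec (N.adjugate.mulVec s))
  have hy : ∀ k, (y k : ℝ) = F (fun i k => (M i k : ℝ), fun i => (s i : ℝ)) k := by
    intro k
    show (((N.det)⁻¹ * ((Matrix.of M)ᵀ.mulVec (N.adjugate.mulVec s)) k : ℚ) : ℝ) =
      (dn (fun i k => (M i k : ℝ), fun i => (s i : ℝ)))⁻¹ *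
        ((Matrix.of (fun i k => (M i k : ℝ)))ᵀ.mulVec ((Matrix.of (fun i k => (M i k : ℝ)) *
          (Matrix.of (fun i k => (M i k : ℝ)))ᵀ).adjugate.mulVec (fun i => (s i : ℝ)))) k
    rw [Rat.cast_mul, Rat.cast_inv, hdet]
    congr 1
    have h1 := RingHom.map_mulVec c ((Matrix.of M)ᵀ) (N.adjugate.mulVec s) k
    have h2 : (c ∘ (N.adjugate.mulVec s)) = (N.adjugate.map c).mulVec (c ∘ s) := by
      funext i
      exact RingHom.map_mulVec c N.adjugate s i
    rw [h2, hadj, Matrix.transpose_map, hM'] at h1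
    exact h1
  refine ⟨y, fun k => by rw [hy k]; exact f1 k, fun i => ?_⟩
  have h3 : (Matrix.of M).mulVec y = s := by
    show (Matrix.of M).mulVec ((N.det)⁻¹ • ((Matrix.of M)ᵀ.mulVec (N.adjugate.mulVec s))) = s
    rw [Matrix.mulVec_smul, Matrix.mulVec_mulVec, Matrix.mulVec_mulVec]
    show (N.det)⁻¹ • ((N * N.adjugate).mulVec s) = s
    rw [Matrix.mul_adjugate, Matrix.smul_mulVec, Matrix.one_mulVec, smul_smul, inv_mul_cancel₀ hne, one_smul]
  exact congrFun h3 i

end Pool.Agent.LibRac44
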