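import Pool.Agent.LibRac44.Lin

/-! Rational 1-planar RAC-drawings near a given one, level by level. -/

namespace Pool.Agent.LibRac44

open Set Filter Topology

variable {V : Type*} {G : SimpleGraph V} {p : V → ℝ × ℝ}

/-- a rational point as a real point -/
def cst (x : ℚ × ℚ) : ℝ × ℝ := ((x.1 : ℝ), (x.2 : ℝ))

/-- the edge `ab` has level `n` (the larger of the levels of its ends) and is crossed by an edge of
smaller level -/
def Active (G : SimpleGraph V) (p : V → ℝ × ℝ) (r : V → ℕ) (n : ℕ) (a b : V) : Prop :=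
  max (r a) (r b) = n ∧ ∃ c d, Cross G p a b c d ∧ max (r c) (r d) < n

/-- the active edges of level `n` carry no self-stress in equilibrium at the vertices of level `n` -/
def StressFree [Fintype V] (G : SimpleGraph V) (p : V → ℝ × ℝ) (r : V → ℕ) (n : ℕ) : Prop :=
  ∀ ω : V → V → ℝ, (∀ a b, ω a b = ω b a) → (∀ a b, ω a b ≠ 0 → Active G p r n a b) →
    (∀ v, r v = n → ∑ w, ω v w • (p w - p v) = 0) → ∀ a b, ω a b = 0

/-- a coordinate of a point -/
def cmp {R : Type*} (x : R × R) (k : Bool) : R := cond k x.1 x.2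

lemma exists_rat_near (x : ℝ) {ε : ℝ} (hε : 0 < ε) : ∃ y : ℚ, |(y : ℝ) - x| < ε := by
  obtain ⟨y, h1, h2⟩ := exists_rat_btwn (show x - ε < x + ε by linarith)
  exact ⟨y, by rw [abs_lt]; constructor <;> linarith⟩

lemma exists_rat_point (p : V → ℝ × ℝ) {ε : ℝ} (hε : 0 < ε) : ∃ q : V → ℚ × ℚ, ∀ v, dist (cst (q v)) (p v) < ε := by
  have h : ∀ v, ∃ y : ℚ × ℚ, dist (cst y) (p v) < ε := by
    intro v
    obtain ⟨y1, h1⟩ := exists_rat_near (p v).1 hε
    obtain ⟨y2, h2⟩ := exists_rat_near (p v).2 hε
    refine ⟨(y1, y2), ?_⟩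
    rw [Prod.dist_eq]
    exact max_lt (by rw [Real.dist_eq]; exact h1) (by rw [Real.dist_eq]; exact h2)
  choose q hq using h
  exact ⟨q, hq⟩

/-- perpendicular vectors: one is a multiple of the other turned by a right angle -/
lemma rot_of_perp {u v : ℝ × ℝ} (hu : u ≠ 0) (hv : v ≠ 0) (h : dot u v = 0) :
    ∃ μ : ℝ, μ ≠ 0 ∧ v = μ • ((-u.2, u.1) : ℝ × ℝ) := by
  have hu' : 0 < u.1 * u.1 + u.2 * u.2 := by
    rcases (add_nonneg (mul_self_nonneg u.1) (mul_self_nonneg u.2)).lt_or_eq with h | h
    · exact h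
    · exact absurd (dot_self_eq_zero (x := u) h.symm) hu
  have h1 : det2 u v ≠ 0 := det_ne_of_perp hu hv h
  refine ⟨det2 u v / (u.1 * u.1 + u.2 * u.2), div_ne_zero h1 hu'.ne', ?_⟩
  unfold dot at h
  unfold det2
  refine Prod.ext ?_ ?_
  · simp only [Prod.smul_fst, smul_eq_mul]
    rw [div_mul_eq_mul_div, eq_div_iff hu'.ne']
    linear_combination u.1 * h
  · simp only [Prod.smul_snd, smul_eq_mul]
    rw [div_mul_eq_mul_div, eq_div_iff hu'.ne']
    linear_combination u.2 * h

/-- one level -/
lemma level_step [Fintype V] (hp : IsRac1 G p) (r : V → ℕ) (n : ℕ) (hs : StressFree G p r n) {ε : ℝ} (hε : 0 < ε) :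
    ∃ δ > 0, ∀ q : V → ℚ × ℚ, (∀ v, dist (cst (q v)) (p v) < δ) → ∃ q' : V → ℚ × ℚ,
      (∀ v, r v ≠ n → q' v = q v) ∧ (∀ v, dist (cst (q' v)) (p v) < ε) ∧
      ∀ a b c d, Cross G p a b c d → max (r a) (r b) = n → max (r c) (r d) < n →
        dot (cst (q' a) - cst (q' b)) (cst (q' c) - cst (q' d)) = 0 := by
  classical
  let ι := {e : Sym2 V // ∃ a b c d, e = s(a, b) ∧ Cross G p a b c d ∧ max (r a) (r b) = n ∧ max (r c) (r d) < n}
  let W := {v : V // r v = n}
  let κ := W × Bool
  have hι : ∀ e : ι, ∃ a b c d, e.1 = s(a, b) ∧ Cross G p a b c d ∧ max (r a) (r b) = n ∧ max (r c) (r d) < n :=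
    fun e => e.2
  choose A B C D he hcr hab hcd using hι
  -- the coefficient of a vertex
  let sg : ι → V → ℝ := fun e v => (if A e = v then 1 else 0) - (if B e = v then 1 else 0)
  let M₀ : ι → κ → ℝ := fun e k => sg e k.1.1 * cmp (p (C e) - p (D e)) k.2
  have hAB : ∀ e, A e ≠ B e := fun e => (cross_ne hp.draw (hcr e)).1
  have hCD : ∀ e, C e ≠ D e := fun e => (cross_ne hp.draw (hcr e)).2.1
  have hμ : ∀ e, ∃ μ : ℝ, μ ≠ 0 ∧ p (C e) - p (D e) =
      μ • ((-(p (A e) - p (B e)).2, (p (A e) - p (B e)).1) : ℝ × ℝ) := by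
    intro e
    exact rot_of_perp (fun h => hAB e (hp.draw.inj (sub_eq_zero.1 h)))
      (fun h => hCD e (hp.draw.inj (sub_eq_zero.1 h))) (hp.right _ _ _ _ (hcr e))
  choose μ hμ0 hμ1 using hμ
  have hM₀ : ∀ l : ι → ℝ, (∀ k, ∑ i, l i * M₀ i k = 0) → l = 0 := by
    intro l hl
    let ω : V → V → ℝ := fun a b => ∑ e : ι, if e.1 = s(a, b) then l e * μ e else 0
    have hω : ∀ a b, ω a b = 0 := by
      apply hs ω
      · intro a b
        show (∑ e : ι, if e.1 = s(a, b) then l e * μ e else 0) = ∑ e : ι, if e.1 = s(b, a) then l e * μ e else 0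
        rw [Sym2.eq_swap]
      · intro a b h0
        obtain ⟨e, -, h1⟩ := Finset.exists_ne_zero_of_sum_ne_zero h0
        have h2 : e.1 = s(a, b) := by
          by_contra h
          rw [if_neg h] at h1
          exact h1 rfl
        rw [he e, Sym2.eq_iff] at h2
        rcases h2 with ⟨e1, e2⟩ | ⟨e1, e2⟩
        · rw [← e1, ← e2]
          exact ⟨hab e, C e, D e, hcr e, hcd e⟩
        · rw [← e1, ← e2]
          exact ⟨by rw [max_comm]; exact hab e, C e, D e, (hcr e).swap, hcd e⟩
      · intro v hv
        have h1 : ∑ w, ω v w • (p w - p v) = ∑ e : ι, (l e * μ e) • (-(sg e v • (p (A e) - p (B e)))) := by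
          have h2 : ∀ w, ω v w • (p w - p v) = ∑ e : ι, (l e * μ e) • (if e.1 = s(v, w) then p w - p v else 0) := by
            intro w
            show (∑ e : ι, if e.1 = s(v, w) then l e * μ e else 0) • (p w - p v) = _
            rw [Finset.sum_smul]
            refine Finset.sum_congr rfl (fun e _ => ?_)
            by_cases h : e.1 = s(v, w)
            · rw [if_pos h, if_pos h]
            · rw [if_neg h, if_neg h, zero_smul, smul_zero]
          rw [Finset.sum_congr rfl (fun w _ => h2 w), Finset.sum_comm]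
          refine Finset.sum_congr rfl (fun e _ => ?_)
          rw [← Finset.smul_sum]
          congr 1
          have h3 : ∀ w, (if e.1 = s(v, w) then p w - p v else 0) =
              (if w = B e then (if A e = v then p (B e) - p v else 0) else 0) +
              (if w = A e then (if B e = v then p (A e) - p v else 0) else 0) := by
            intro w
            have hne := hAB e
            by_cases h : e.1 = s(v, w)
            · rw [if_pos h]
              rw [he e, Sym2.eq_iff] at h
              rcases h with ⟨e1, e2⟩ | ⟨e1, e2⟩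
              · rw [if_pos e2.symm, if_pos e1, if_neg (fun h => hne (h.symm.trans e2.symm)), add_zero, e2]
              · rw [if_neg (fun h => hne (e1.trans h)), if_pos e1.symm, if_pos e2, zero_add, e1]
            · rw [if_neg h]
              have h4 : ¬ (w = B e ∧ A e = v) := fun hh => h (by rw [he e, hh.1, hh.2])
              have h5 : ¬ (w = A e ∧ B e = v) := fun hh => h (by rw [he e, hh.1, hh.2, Sym2.eq_swap])
              have g1 : (if w = B e then (if A e = v then p (B e) - p v else 0) else 0) = (0 : ℝ × ℝ) := by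
                by_cases hw : w = B e
                · rw [if_pos hw, if_neg (fun h' => h4 ⟨hw, h'⟩)]
                · rw [if_neg hw]
              have g2 : (if w = A e then (if B e = v then p (A e) - p v else 0) else 0) = (0 : ℝ × ℝ) := by
                by_cases hw : w = A e
                · rw [if_pos hw, if_neg (fun h' => h5 ⟨hw, h'⟩)]
                · rw [if_neg hw]
              rw [g1, g2, add_zero]
          rw [Finset.sum_congr rfl (fun w _ => h3 w), Finset.sum_add_distrib, Finset.sum_ite_eq',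
            Finset.sum_ite_eq', if_pos (Finset.mem_univ _), if_pos (Finset.mem_univ _)]
          show (if A e = v then p (B e) - p v else 0) + (if B e = v then p (A e) - p v else 0) =
            -((((if A e = v then (1 : ℝ) else 0) - (if B e = v then 1 else 0))) • (p (A e) - p (B e)))
          by_cases h6 : A e = v
          · have h7 : ¬ B e = v := fun h => hAB e (h6.trans h.symm)
            rw [if_pos h6, if_neg h7, if_pos h6, if_neg h7, sub_zero, one_smul, add_zero, ← h6]
            abel
          · by_cases h7 : B e = v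
            · rw [if_neg h6, if_pos h7, if_neg h6, if_pos h7, zero_sub, neg_smul, one_smul, zero_add, ← h7]
              abel
            · rw [if_neg h6, if_neg h7, if_neg h6, if_neg h7, sub_zero, zero_smul, add_zero, neg_zero]
        rw [h1]
        have k1 := hl (⟨v, hv⟩, true)
        have k2 := hl (⟨v, hv⟩, false)
        have k1' : ∑ e : ι, l e * (sg e v * (μ e * (-(p (A e) - p (B e)).2))) = 0 := by
          rw [← k1]
          refine Finset.sum_congr rfl (fun e _ => ?_)
          show l e * (sg e v * (μ e * (-(p (A e) - p (B e)).2))) = l e * (sg e v * (p (C e) - p (D e)).1)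
          rw [hμ1 e]
          simp only [Prod.smul_fst, smul_eq_mul]
        have k2' : ∑ e : ι, l e * (sg e v * (μ e * (p (A e) - p (B e)).1)) = 0 := by
          rw [← k2]
          refine Finset.sum_congr rfl (fun e _ => ?_)
          show l e * (sg e v * (μ e * (p (A e) - p (B e)).1)) = l e * (sg e v * (p (C e) - p (D e)).2)
          rw [hμ1 e]
          simp only [Prod.smul_snd, smul_eq_mul]
        refine Prod.ext ?_ ?_
        · rw [Prod.fst_sum, Prod.fst_zero, ← neg_eq_zero, ← Finset.sum_neg_distrib, ← k2']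
          refine Finset.sum_congr rfl (fun e _ => ?_)
          simp only [Prod.smul_fst, Prod.fst_neg, smul_eq_mul]
          ring
        · rw [Prod.snd_sum, Prod.snd_zero, ← k1']
          refine Finset.sum_congr rfl (fun e _ => ?_)
          simp only [Prod.smul_snd, Prod.snd_neg, smul_eq_mul]
          ring
    funext e
    have h1 := hω (A e) (B e)
    have h2 : (∑ e' : ι, if e'.1 = s(A e, B e) then l e' * μ e' else 0) = l e * μ e := by
      rw [Finset.sum_eq_single e]
      · rw [if_pos (he e)]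
      · intro e' _ hne
        rw [if_neg]
        intro h
        exact hne (Subtype.ext (h.trans (he e).symm))
      · intro h
        exact absurd (Finset.mem_univ _) h
    have h3 : l e * μ e = 0 := by
      rw [← h2]
      exact h1
    rcases mul_eq_zero.1 h3 with h | h
    · exact h
    · exact absurd h (hμ0 e)
  obtain ⟨δ, hδ, hla⟩ := la M₀ hM₀ (half_pos hε)
  -- closeness of the system
  have ev : ∀ᶠ q : V → ℝ × ℝ in 𝓝 p, (∀ e : ι, ∀ k : κ, |sg e k.1.1 * cmp (q (C e) - q (D e)) k.2 - M₀ e k| < δ) ∧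
      ∀ e : ι, |dot (q (A e) - q (B e)) (q (C e) - q (D e))| < δ := by
    refine Filter.Eventually.and ?_ ?_
    · rw [Filter.eventually_all]
      intro e
      rw [Filter.eventually_all]
      rintro ⟨w, k⟩
      have c1 : Continuous (fun q : V → ℝ × ℝ => |sg e w.1 * cmp (q (C e) - q (D e)) k - M₀ e (w, k)|) := by
        cases k
        · show Continuous (fun q : V → ℝ × ℝ => |sg e w.1 * (q (C e) - q (D e)).2 - M₀ e (w, false)|)
          fun_prop
        · show Continuous (fun q : V → ℝ × ℝ => |sg e w.1 * (q (C e) - q (D e)).1 - M₀ e (w, true)|)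
          fun_prop
      refine c1.continuousAt.eventually_lt continuousAt_const ?_
      show |sg e w.1 * cmp (p (C e) - p (D e)) k - sg e w.1 * cmp (p (C e) - p (D e)) k| < δ
      rw [sub_self, abs_zero]
      exact hδ
    · rw [Filter.eventually_all]
      intro e
      have c1 : Continuous (fun q : V → ℝ × ℝ => |dot (q (A e) - q (B e)) (q (C e) - q (D e))|) := by
        unfold dot
        fun_prop
      refine c1.continuousAt.eventually_lt continuousAt_const ?_
      rw [hp.right _ _ _ _ (hcr e), abs_zero]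
      exact hδ
  obtain ⟨δ', hδ', hball⟩ := Metric.eventually_nhds_iff.1 ev
  refine ⟨min δ' (ε / 2), lt_min hδ' (half_pos hε), fun q hq => ?_⟩
  obtain ⟨f1, f2⟩ := @hball (fun v => cst (q v)) ((dist_pi_lt_iff hδ').2
    (fun v => (hq v).trans_le (min_le_left _ _)))
  let sgq : ι → V → ℚ := fun e v => (if A e = v then 1 else 0) - (if B e = v then 1 else 0)
  have hsg : ∀ e v, (sgq e v : ℝ) = sg e v := by
    intro e v
    show (((if A e = v then 1 else 0) - (if B e = v then 1 else 0) : ℚ) : ℝ) =
      (if A e = v then 1 else 0) - (if B e = v then 1 else 0)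
    rw [Rat.cast_sub]
    congr 1
    · split_ifs
      · exact Rat.cast_one
      · exact Rat.cast_zero
    · split_ifs
      · exact Rat.cast_one
      · exact Rat.cast_zero
  let dq : (ℚ × ℚ) → (ℚ × ℚ) → ℚ := fun x y => x.1 * y.1 + x.2 * y.2
  have hdq : ∀ x y x' y' : ℚ × ℚ, ((dq (x - y) (x' - y') : ℚ) : ℝ) = dot (cst x - cst y) (cst x' - cst y') := by
    intro x y x' y'
    show (((x - y).1 * (x' - y').1 + (x - y).2 * (x' - y').2 : ℚ) : ℝ) = _
    unfold dot cst
    simp only [Prod.fst_sub, Prod.snd_sub]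
    push_cast
    ring
  obtain ⟨y, hy1, hy2⟩ := hla (fun e k => sgq e k.1.1 * cmp (q (C e) - q (D e)) k.2)
    (fun e => -(dq (q (A e) - q (B e)) (q (C e) - q (D e)))) (by
      rintro e ⟨w, k⟩
      have := f1 e (w, k)
      have e1 : ((sgq e w.1 * cmp (q (C e) - q (D e)) k : ℚ) : ℝ) =
          sg e w.1 * cmp (cst (q (C e)) - cst (q (D e))) k := by
        rw [Rat.cast_mul, hsg]
        congr 1
        cases k
        · show (((q (C e) - q (D e)).2 : ℚ) : ℝ) = (cst (q (C e)) - cst (q (D e))).2
          unfold cst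
          simp only [Prod.snd_sub]
          push_cast
          ring
        · show (((q (C e) - q (D e)).1 : ℚ) : ℝ) = (cst (q (C e)) - cst (q (D e))).1
          unfold cst
          simp only [Prod.fst_sub]
          push_cast
          ring
      show |((sgq e w.1 * cmp (q (C e) - q (D e)) k : ℚ) : ℝ) - M₀ e (w, k)| < δ
      rw [e1]
      exact this) (by
      intro e
      have := f2 e
      rw [Rat.cast_neg, abs_neg, hdq]
      exact this)
  let Y : V → ℚ × ℚ := fun v => if h : r v = n then (y (⟨v, h⟩, true), y (⟨v, h⟩, false)) else 0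
  have hYn : ∀ v, r v ≠ n → Y v = 0 := fun v h => dif_neg h
  have hYs : ∀ v, |((Y v).1 : ℝ)| < ε / 2 ∧ |((Y v).2 : ℝ)| < ε / 2 := by
    intro v
    by_cases h : r v = n
    · have e1 : Y v = (y (⟨v, h⟩, true), y (⟨v, h⟩, false)) := dif_pos h
      rw [e1]
      exact ⟨hy1 _, hy1 _⟩
    · rw [hYn v h]
      simp only [Prod.fst_zero, Prod.snd_zero, Rat.cast_zero, abs_zero]
      exact ⟨half_pos hε, half_pos hε⟩
  have hbase : ∀ e : ι, dq (Y (A e) - Y (B e)) (q (C e) - q (D e)) = -(dq (q (A e) - q (B e)) (q (C e) - q (D e))) := by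
    intro e
    rw [← hy2 e]
    show _ = ∑ k : W × Bool, sgq e k.1.1 * cmp (q (C e) - q (D e)) k.2 * y k
    rw [Fintype.sum_prod_type]
    have h1 : ∀ w : W, ∑ b : Bool, sgq e w.1 * cmp (q (C e) - q (D e)) b * y (w, b) =
        (if A e = w.1 then dq (Y (A e)) (q (C e) - q (D e)) else 0) -
        (if B e = w.1 then dq (Y (B e)) (q (C e) - q (D e)) else 0) := by
      rintro ⟨v, hv⟩
      rw [Fintype.sum_bool]
      have hYv : Y v = (y (⟨v, hv⟩, true), y (⟨v, hv⟩, false)) := dif_pos hv
      show ((if A e = v then 1 else 0) - (if B e = v then 1 else 0)) * (q (C e) - q (D e)).1 * y (⟨v, hv⟩, true) +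
        ((if A e = v then 1 else 0) - (if B e = v then 1 else 0)) * (q (C e) - q (D e)).2 * y (⟨v, hv⟩, false) = _
      by_cases h2 : A e = v
      · have h3 : ¬ B e = v := fun h => hAB e (h2.trans h.symm)
        rw [if_pos h2, if_neg h3, if_pos h2, if_neg h3, h2, hYv]
        show _ = y (⟨v, hv⟩, true) * (q (C e) - q (D e)).1 + y (⟨v, hv⟩, false) * (q (C e) - q (D e)).2 - 0
        ring
      · by_cases h3 : B e = v
        · rw [if_neg h2, if_pos h3, if_neg h2, if_pos h3, h3, hYv]
          show _ = 0 - (y (⟨v, hv⟩, true) * (q (C e) - q (D e)).1 + y (⟨v, hv⟩, false) * (q (C e) - q (D e)).2)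
          ring
        · rw [if_neg h2, if_neg h3, if_neg h2, if_neg h3]
          ring
    rw [Finset.sum_congr rfl (fun w _ => h1 w), Finset.sum_sub_distrib]
    have h4 : ∀ a : V, ∑ w : W, (if a = w.1 then dq (Y a) (q (C e) - q (D e)) else 0) =
        dq (Y a) (q (C e) - q (D e)) := by
      intro a
      by_cases h : r a = n
      · rw [Finset.sum_eq_single (⟨a, h⟩ : W)]
        · rw [if_pos rfl]
        · intro w _ hw
          rw [if_neg]
          intro h'
          exact hw (Subtype.ext h'.symm)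
        · intro h'
          exact absurd (Finset.mem_univ _) h'
      · rw [hYn a h]
        have h5 : dq 0 (q (C e) - q (D e)) = 0 := by
          show (0 : ℚ) * _ + 0 * _ = 0
          ring
        rw [h5]
        simp
    rw [h4, h4]
    show ((Y (A e)) - Y (B e)).1 * _ + ((Y (A e)) - Y (B e)).2 * _ = _ - _
    show ((Y (A e)) - Y (B e)).1 * (q (C e) - q (D e)).1 + ((Y (A e)) - Y (B e)).2 * (q (C e) - q (D e)).2 =
      ((Y (A e)).1 * (q (C e) - q (D e)).1 + (Y (A e)).2 * (q (C e) - q (D e)).2) -
      ((Y (B e)).1 * (q (C e) - q (D e)).1 + (Y (B e)).2 * (q (C e) - q (D e)).2)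
    rw [Prod.fst_sub, Prod.snd_sub]
    ring
  refine ⟨fun v => q v + Y v, fun v hv => by
    show q v + Y v = q v
    rw [hYn v hv, add_zero], fun v => ?_, fun a b c d h h1 h2 => ?_⟩
  · have h3 := (hq v).trans_le (min_le_right _ _)
    have h4 : dist (cst (q v + Y v)) (cst (q v)) < ε / 2 := by
      rw [Prod.dist_eq]
      apply max_lt
      · rw [Real.dist_eq]
        show |(((q v).1 + (Y v).1 : ℚ) : ℝ) - ((q v).1 : ℝ)| < ε / 2
        rw [Rat.cast_add, add_sub_cancel_left]
        exact (hYs v).1
      · rw [Real.dist_eq]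
        show |(((q v).2 + (Y v).2 : ℚ) : ℝ) - ((q v).2 : ℝ)| < ε / 2
        rw [Rat.cast_add, add_sub_cancel_left]
        exact (hYs v).2
    calc dist (cst (q v + Y v)) (p v) ≤ dist (cst (q v + Y v)) (cst (q v)) + dist (cst (q v)) (p v) :=
          dist_triangle _ _ _
      _ < ε / 2 + ε / 2 := add_lt_add h4 h3
      _ = ε := add_halves ε
  · -- the equation
    let e : ι := ⟨s(a, b), a, b, c, d, rfl, h, h1, h2⟩
    have e1 : s(a, b) = s(A e, B e) := he e
    have hC0 : Y (C e) = 0 := hYn _ (fun h' => by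
      have := hcd e
      have h3 := le_max_left (r (C e)) (r (D e))
      omega)
    have hD0 : Y (D e) = 0 := hYn _ (fun h' => by
      have := hcd e
      have h3 := le_max_right (r (C e)) (r (D e))
      omega)
    have key : dot (cst (q (A e) + Y (A e)) - cst (q (B e) + Y (B e)))
        (cst (q (C e) + Y (C e)) - cst (q (D e) + Y (D e))) = 0 := by
      rw [← hdq, hC0, hD0, add_zero, add_zero]
      have h3 := hbase e
      have h4 : dq (q (A e) + Y (A e) - (q (B e) + Y (B e))) (q (C e) - q (D e)) =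
          dq (Y (A e) - Y (B e)) (q (C e) - q (D e)) + dq (q (A e) - q (B e)) (q (C e) - q (D e)) := by
        show (q (A e) + Y (A e) - (q (B e) + Y (B e))).1 * (q (C e) - q (D e)).1 +
          (q (A e) + Y (A e) - (q (B e) + Y (B e))).2 * (q (C e) - q (D e)).2 =
          ((Y (A e) - Y (B e)).1 * (q (C e) - q (D e)).1 + (Y (A e) - Y (B e)).2 * (q (C e) - q (D e)).2) +
          ((q (A e) - q (B e)).1 * (q (C e) - q (D e)).1 + (q (A e) - q (B e)).2 * (q (C e) - q (D e)).2)
        simp only [Prod.fst_sub, Prod.snd_sub, Prod.fst_add, Prod.snd_add]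
        ring
      rw [h4, h3, neg_add_cancel, Rat.cast_zero]
    have hcr' : Cross G p a b (C e) (D e) := by
      have h5 := hcr e
      rw [Sym2.eq_iff] at e1
      rcases e1 with ⟨g1, g2⟩ | ⟨g1, g2⟩
      · rw [g1, g2]
        exact h5
      · rw [g1, g2]
        exact h5.swap
    have e2 := partner_unique hp hcr' h
    have neg1 : ∀ u v w z : ℝ × ℝ, dot (u - v) (w - z) = 0 → dot (v - u) (w - z) = 0 := by
      intro u v w z h
      unfold dot at h ⊢
      simp only [Prod.fst_sub, Prod.snd_sub] at h ⊢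
      linear_combination -h
    have neg2 : ∀ u v w z : ℝ × ℝ, dot (u - v) (w - z) = 0 → dot (u - v) (z - w) = 0 := by
      intro u v w z h
      unfold dot at h ⊢
      simp only [Prod.fst_sub, Prod.snd_sub] at h ⊢
      linear_combination -h
    rw [Sym2.eq_iff] at e1 e2
    show dot (cst (q a + Y a) - cst (q b + Y b)) (cst (q c + Y c) - cst (q d + Y d)) = 0
    rcases e1 with ⟨g1, g2⟩ | ⟨g1, g2⟩ <;> rcases e2 with ⟨g3, g4⟩ | ⟨g3, g4⟩
    · rw [g1, g2, ← g3, ← g4]
      exact key
    · rw [g1, g2, ← g3, ← g4]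
      exact neg2 _ _ _ _ key
    · rw [g1, g2, ← g3, ← g4]
      exact neg1 _ _ _ _ key
    · rw [g1, g2, ← g3, ← g4]
      exact neg1 _ _ _ _ (neg2 _ _ _ _ key)

/-- all levels -/
theorem levels [Fintype V] (hp : IsRac1 G p) (r : V → ℕ)
    (hr : ∀ a b c d, Cross G p a b c d → max (r a) (r b) ≠ max (r c) (r d)) (hs : ∀ n, StressFree G p r n) (n : ℕ) :
    ∀ ε > 0, ∃ q : V → ℚ × ℚ, (∀ v, dist (cst (q v)) (p v) < ε) ∧
      ∀ a b c d, Cross G p a b c d → max (r a) (r b) < n → max (r c) (r d) < n →
        dot (cst (q a) - cst (q b)) (cst (q c) - cst (q d)) = 0 := by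
  induction n with
  | zero =>
    intro ε hε
    obtain ⟨q, hq⟩ := exists_rat_point p hε
    exact ⟨q, hq, fun a b c d _ h => absurd h (Nat.not_lt_zero _)⟩
  | succ n ih =>
    intro ε hε
    obtain ⟨δ, hδ, hstep⟩ := level_step hp r n (hs n) hε
    obtain ⟨q, hq, hqc⟩ := ih δ hδ
    obtain ⟨q', h1, h2, h3⟩ := hstep q hq
    refine ⟨q', h2, fun a b c d h h4 h5 => ?_⟩
    have hne := hr a b c d h
    rcases Nat.lt_or_ge (max (r a) (r b)) n with h6 | h6
    · rcases Nat.lt_or_ge (max (r c) (r d)) n with h7 | h7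
      · have ha := le_max_left (r a) (r b)
        have hb := le_max_right (r a) (r b)
        have hc := le_max_left (r c) (r d)
        have hd := le_max_right (r c) (r d)
        rw [h1 a (by omega), h1 b (by omega), h1 c (by omega), h1 d (by omega)]
        exact hqc a b c d h h6 h7
      · have h8 := h3 c d a b h.symm (by omega) h6
        unfold dot at h8 ⊢
        linear_combination h8
    · exact h3 a b c d h (by omega) (by omega)

/-- rational 1-planar RAC-drawings near a given one -/
theorem rational [Fintype V] (hp : IsRac1 G p) (r : V → ℕ)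
    (hr : ∀ a b c d, Cross G p a b c d → max (r a) (r b) ≠ max (r c) (r d)) (hs : ∀ n, StressFree G p r n)
    {ε : ℝ} (hε : 0 < ε) : ∃ q : V → ℚ × ℚ, IsRac1 G (fun v => cst (q v)) ∧ (∀ v, dist (cst (q v)) (p v) < ε) ∧
      ∀ a b c d, Cross G (fun v => cst (q v)) a b c d ↔ Cross G p a b c d := by
  obtain ⟨ε', hε', hst⟩ := stable hp
  obtain ⟨N, hN⟩ : ∃ N, ∀ v, r v < N := by
    refine ⟨(Finset.univ.sup r) + 1, fun v => Nat.lt_succ_of_le (Finset.le_sup (Finset.mem_univ v))⟩
  obtain ⟨q, h1, h2⟩ := levels hp r hr hs N (min ε ε') (lt_min hε hε')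
  obtain ⟨h3, h4⟩ := hst (fun v => cst (q v)) (fun v => (h1 v).trans_le (min_le_right _ _))
    (fun a b c d h => h2 a b c d h (max_lt (hN a) (hN b)) (max_lt (hN c) (hN d)))
  exact ⟨q, h3, fun v => (h1 v).trans_le (min_le_left _ _), h4⟩

end Pool.Agent.LibRac44
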