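import Pool.Agent.LibRac44.Basic

/-! Small changes of a 1-planar RAC-drawing that keep the right angles. -/

namespace Pool.Agent.LibRac44

open Set Filter Topology

variable {V : Type*} {G : SimpleGraph V} {p : V → ℝ × ℝ}

lemma CrossAt.symm {a b c d : V} {x : ℝ × ℝ} (h : CrossAt G p a b c d x) : CrossAt G p c d a b x :=
  ⟨h.2.1, h.1, fun e => h.2.2.1 e.symm, h.2.2.2.2, h.2.2.2.1⟩

lemma CrossAt.swap {a b c d : V} {x : ℝ × ℝ} (h : CrossAt G p a b c d x) : CrossAt G p b a c d x := by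
  refine ⟨h.1.symm, h.2.1, ?_, ?_, h.2.2.2.2⟩
  · rw [Sym2.eq_swap]
    exact h.2.2.1
  · rw [openSegment_symm]
    exact h.2.2.2.1

lemma CrossAt.swap' {a b c d : V} {x : ℝ × ℝ} (h : CrossAt G p a b c d x) : CrossAt G p a b d c x :=
  h.symm.swap.symm

lemma Cross.symm {a b c d : V} (h : Cross G p a b c d) : Cross G p c d a b := by
  obtain ⟨x, hx⟩ := h
  exact ⟨x, hx.symm⟩

lemma Cross.swap {a b c d : V} (h : Cross G p a b c d) : Cross G p b a c d := by
  obtain ⟨x, hx⟩ := h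
  exact ⟨x, hx.swap⟩

lemma Cross.swap' {a b c d : V} (h : Cross G p a b c d) : Cross G p a b d c := by
  obtain ⟨x, hx⟩ := h
  exact ⟨x, hx.swap'⟩

lemma cross_ne_first (hp : IsDrawing G p) {a b c d : V} (h : Cross G p a b c d) : a ≠ c := by
  rintro rfl
  obtain ⟨x, h1, h2, h3, h4, h5⟩ := h
  have hab : p a ≠ p b := fun e => h1.ne (hp.inj e)
  have h6 := hp.meet _ _ _ _ h1 h2 h3
    ⟨openSegment_subset_segment ℝ _ _ h4, openSegment_subset_segment ℝ _ _ h5⟩
    ⟨left_mem_segment ℝ _ _, left_mem_segment ℝ _ _⟩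
  exact oseg_ne_left hab h4 h6

/-- the four endpoints of two crossing edges are different -/
lemma cross_ne (hp : IsDrawing G p) {a b c d : V} (h : Cross G p a b c d) :
    a ≠ b ∧ c ≠ d ∧ a ≠ c ∧ a ≠ d ∧ b ≠ c ∧ b ≠ d :=
  ⟨h.choose_spec.1.ne, h.choose_spec.2.1.ne, cross_ne_first hp h, cross_ne_first hp h.swap',
    cross_ne_first hp h.swap, cross_ne_first hp h.swap.swap'⟩

/-- an edge crosses at most one other edge -/
lemma partner_unique (hp : IsRac1 G p) {a b c d c' d' : V} (h : Cross G p a b c d) (h' : Cross G p a b c' d') :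
    s(c, d) = s(c', d') := by
  by_contra hne
  have r1 := hp.right _ _ _ _ h
  have r2 := hp.right _ _ _ _ h'
  obtain ⟨x, hx⟩ := h
  obtain ⟨x', hx'⟩ := h'
  have hxx := hp.one _ _ _ _ _ _ _ _ hx hx'
  subst hxx
  have hab : p a - p b ≠ 0 := fun e => hx.1.ne (hp.draw.inj (sub_eq_zero.1 e))
  exact par_overlap hab (fun e => hx.2.1.ne (hp.draw.inj e)) (fun e => hx'.2.1.ne (hp.draw.inj e)) r1 r2
    hx.2.2.2.2 hx'.2.2.2.2 (hp.draw.meet _ _ _ _ hx.2.1 hx'.2.1 hne)

lemma mem_oseg_of {A B x : ℝ × ℝ} (h : x ∈ segment ℝ A B) (h1 : x ≠ A) (h2 : x ≠ B) : x ∈ openSegment ℝ A B :=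
  mem_openSegment_of_ne_left_right h1.symm h2.symm h

lemma cross_of_meet (hp : IsDrawing G p) {a b c d : V} (h1 : G.Adj a b) (h2 : G.Adj c d) (hac : a ≠ c) (had : a ≠ d)
    (hbc : b ≠ c) (hbd : b ≠ d) (h : ¬ Disjoint (segment ℝ (p a) (p b)) (segment ℝ (p c) (p d))) :
    Cross G p a b c d := by
  rw [Set.not_disjoint_iff] at h
  obtain ⟨x, hx1, hx2⟩ := h
  refine ⟨x, h1, h2, ?_, ?_, ?_⟩
  · intro e
    rw [Sym2.eq_iff] at e
    rcases e with e | e
    · exact hac e.1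
    · exact had e.1
  · apply mem_oseg_of hx1
    · rintro rfl
      exact hp.vertex c d a h2 hac had hx2
    · rintro rfl
      exact hp.vertex c d b h2 hbc hbd hx2
  · apply mem_oseg_of hx2
    · rintro rfl
      exact hp.vertex a b c h1 hac.symm hbc.symm hx1
    · rintro rfl
      exact hp.vertex a b d h1 had.symm hbd.symm hx1

lemma det_ne_of_perp {u v : ℝ × ℝ} (hu : u ≠ 0) (hv : v ≠ 0) (h : dot u v = 0) : det2 u v ≠ 0 := by
  intro h0
  unfold dot at h
  unfold det2 at h0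
  have hu' : 0 < u.1 * u.1 + u.2 * u.2 := by
    rcases (add_nonneg (mul_self_nonneg u.1) (mul_self_nonneg u.2)).lt_or_eq with h | h
    · exact h
    · exact absurd (dot_self_eq_zero (x := u) h.symm) hu
  have hv' : 0 < v.1 * v.1 + v.2 * v.2 := by
    rcases (add_nonneg (mul_self_nonneg v.1) (mul_self_nonneg v.2)).lt_or_eq with h | h
    · exact h
    · exact absurd (dot_self_eq_zero (x := v) h.symm) hv
  have h1 : (u.1 * u.1 + u.2 * u.2) * (v.1 * v.1 + v.2 * v.2) = 0 := by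
    linear_combination (u.1 * v.1 + u.2 * v.2) * h + (u.1 * v.2 - u.2 * v.1) * h0
  exact (mul_pos hu' hv').ne' h1

/-- a proper crossing is stable -/
lemma cross_stable {A B C D x : ℝ × ℝ} (hx : x ∈ openSegment ℝ A B) (hx' : x ∈ openSegment ℝ C D)
    (hd : det2 (B - A) (D - C) ≠ 0) :
    ∃ ε > 0, ∀ A' B' C' D' : ℝ × ℝ, dist A' A < ε → dist B' B < ε → dist C' C < ε → dist D' D < ε →
      ∃ y, y ∈ openSegment ℝ A' B' ∧ y ∈ openSegment ℝ C' D' := by
  obtain ⟨s, hs0, hs1, hs⟩ := mem_oseg.1 hx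
  obtain ⟨t, ht0, ht1, ht⟩ := mem_oseg.1 hx'
  let Z := ((ℝ × ℝ) × (ℝ × ℝ)) × ((ℝ × ℝ) × (ℝ × ℝ))
  let z0 : Z := ((A, B), (C, D))
  let dn : Z → ℝ := fun z => det2 (z.1.2 - z.1.1) (z.2.2 - z.2.1)
  let sn : Z → ℝ := fun z => det2 (z.2.1 - z.1.1) (z.2.2 - z.2.1)
  let tn : Z → ℝ := fun z => det2 (z.2.1 - z.1.1) (z.1.2 - z.1.1)
  have cdn : Continuous dn := by unfold dn det2; fun_prop
  have csn : Continuous sn := by unfold sn det2; fun_prop
  have ctn : Continuous tn := by unfold tn det2; fun_prop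
  have hz0 : dn z0 ≠ 0 := hd
  have hCA : C - A = s • (B - A) - t • (D - C) := by
    have h1 : A + s • (B - A) = C + t • (D - C) := hs.trans ht.symm
    have h2 : C = A + s • (B - A) - t • (D - C) := by rw [h1]; abel
    nth_rewrite 1 [h2]
    abel
  have es : sn z0 / dn z0 = s := by
    rw [div_eq_iff hz0]
    show det2 (C - A) (D - C) = s * det2 (B - A) (D - C)
    rw [hCA]
    unfold det2
    simp only [Prod.fst_sub, Prod.snd_sub, Prod.smul_fst, Prod.smul_snd, smul_eq_mul]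
    ring
  have et : tn z0 / dn z0 = t := by
    rw [div_eq_iff hz0]
    show det2 (C - A) (B - A) = t * det2 (B - A) (D - C)
    rw [hCA]
    unfold det2
    simp only [Prod.fst_sub, Prod.snd_sub, Prod.smul_fst, Prod.smul_snd, smul_eq_mul]
    ring
  have c1 : ContinuousAt (fun z => sn z / dn z) z0 := csn.continuousAt.div cdn.continuousAt hz0
  have c2 : ContinuousAt (fun z => tn z / dn z) z0 := ctn.continuousAt.div cdn.continuousAt hz0
  have e1 : ∀ᶠ z in 𝓝 z0, sn z / dn z ∈ Ioo (0 : ℝ) 1 :=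
    c1 (isOpen_Ioo.mem_nhds (by show sn z0 / dn z0 ∈ Ioo (0 : ℝ) 1; rw [es]; exact ⟨hs0, hs1⟩))
  have e2 : ∀ᶠ z in 𝓝 z0, tn z / dn z ∈ Ioo (0 : ℝ) 1 :=
    c2 (isOpen_Ioo.mem_nhds (by show tn z0 / dn z0 ∈ Ioo (0 : ℝ) 1; rw [et]; exact ⟨ht0, ht1⟩))
  have e3 : ∀ᶠ z in 𝓝 z0, dn z ≠ 0 := cdn.continuousAt.eventually_ne hz0
  obtain ⟨ε, hε, hball⟩ := Metric.eventually_nhds_iff.1 (e1.and (e2.and e3))
  refine ⟨ε, hε, fun A' B' C' D' h1 h2 h3 h4 => ?_⟩
  obtain ⟨f1, f2, f3⟩ := @hball ((A', B'), (C', D')) (by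
    rw [Prod.dist_eq, Prod.dist_eq, Prod.dist_eq]
    exact max_lt (max_lt h1 h2) (max_lt h3 h4))
  set S := sn ((A', B'), (C', D')) / dn ((A', B'), (C', D')) with hS
  set T := tn ((A', B'), (C', D')) / dn ((A', B'), (C', D')) with hT
  have g1 : S * det2 (B' - A') (D' - C') = det2 (C' - A') (D' - C') := div_mul_cancel₀ _ f3
  have g2 : T * det2 (B' - A') (D' - C') = det2 (C' - A') (B' - A') := div_mul_cancel₀ _ f3
  have f3' : det2 (B' - A') (D' - C') ≠ 0 := f3
  refine ⟨A' + S • (B' - A'), mem_oseg.2 ⟨S, f1.1, f1.2, rfl⟩, mem_oseg.2 ⟨T, f2.1, f2.2, ?_⟩⟩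
  unfold det2 at g1 g2 f3'
  simp only [Prod.fst_sub, Prod.snd_sub] at g1 g2 f3'
  refine Prod.ext ?_ ?_
  · simp only [Prod.fst_add, Prod.smul_fst, Prod.fst_sub, smul_eq_mul]
    apply mul_right_cancel₀ f3'
    linear_combination (D'.1 - C'.1) * g2 - (B'.1 - A'.1) * g1
  · simp only [Prod.snd_add, Prod.smul_snd, Prod.snd_sub, smul_eq_mul]
    apply mul_right_cancel₀ f3'
    linear_combination (D'.2 - C'.2) * g2 - (B'.2 - A'.2) * g1

/-- small changes that keep the right angles -/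
theorem stable [Finite V] (hp : IsRac1 G p) : ∃ ε > 0, ∀ q : V → ℝ × ℝ, (∀ v, dist (q v) (p v) < ε) →
    (∀ a b c d, Cross G p a b c d → dot (q a - q b) (q c - q d) = 0) →
    IsRac1 G q ∧ ∀ a b c d, Cross G q a b c d ↔ Cross G p a b c d := by
  classical
  haveI := Fintype.ofFinite V
  -- a common bound
  have H1 : ∀ z : V × V × V × V, ∃ ε > 0, ∀ q : V → ℝ × ℝ, (∀ v, dist (q v) (p v) < ε) →
      ((Disjoint (segment ℝ (p z.1) (p z.2.1)) (segment ℝ (p z.2.2.1) (p z.2.2.2)) →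
        Disjoint (segment ℝ (q z.1) (q z.2.1)) (segment ℝ (q z.2.2.1) (q z.2.2.2))) ∧
      (Cross G p z.1 z.2.1 z.2.2.1 z.2.2.2 → ∃ y, y ∈ openSegment ℝ (q z.1) (q z.2.1) ∧
        y ∈ openSegment ℝ (q z.2.2.1) (q z.2.2.2))) := by
    rintro ⟨a, b, c, d⟩
    have HA : ∃ ε > 0, ∀ q : V → ℝ × ℝ, (∀ v, dist (q v) (p v) < ε) →
        (Disjoint (segment ℝ (p a) (p b)) (segment ℝ (p c) (p d)) →
        Disjoint (segment ℝ (q a) (q b)) (segment ℝ (q c) (q d))) := by
      by_cases h : Disjoint (segment ℝ (p a) (p b)) (segment ℝ (p c) (p d))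
      · obtain ⟨ε, hε, h1⟩ := seg_stable h
        exact ⟨ε, hε, fun q hq _ => h1 _ _ _ _ (hq a) (hq b) (hq c) (hq d)⟩
      · exact ⟨1, one_pos, fun q _ h' => absurd h' h⟩
    have HB : ∃ ε > 0, ∀ q : V → ℝ × ℝ, (∀ v, dist (q v) (p v) < ε) →
        (Cross G p a b c d → ∃ y, y ∈ openSegment ℝ (q a) (q b) ∧ y ∈ openSegment ℝ (q c) (q d)) := by
      by_cases h : Cross G p a b c d
      · have hr := hp.right _ _ _ _ h
        obtain ⟨x, hx⟩ := h
        have h1 : p b - p a ≠ 0 := fun e => hx.1.ne (hp.draw.inj (sub_eq_zero.1 e)).symm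
        have h2 : p d - p c ≠ 0 := fun e => hx.2.1.ne (hp.draw.inj (sub_eq_zero.1 e)).symm
        have h3 : dot (p b - p a) (p d - p c) = 0 := by
          rw [← hr]
          unfold dot
          simp only [Prod.fst_sub, Prod.snd_sub]
          ring
        obtain ⟨ε, hε, h4⟩ := cross_stable hx.2.2.2.1 hx.2.2.2.2 (det_ne_of_perp h1 h2 h3)
        exact ⟨ε, hε, fun q hq _ => h4 _ _ _ _ (hq a) (hq b) (hq c) (hq d)⟩
      · exact ⟨1, one_pos, fun q _ h' => absurd h' h⟩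
    obtain ⟨ε1, hε1, h1⟩ := HA
    obtain ⟨ε2, hε2, h2⟩ := HB
    exact ⟨min ε1 ε2, lt_min hε1 hε2, fun q hq => ⟨h1 q (fun v => (hq v).trans_le (min_le_left _ _)),
      h2 q (fun v => (hq v).trans_le (min_le_right _ _))⟩⟩
  choose E hE0 hE using H1
  obtain ⟨ε, hε, hle⟩ : ∃ ε > 0, ∀ z : V × V × V × V, ε ≤ E z := by
    rcases isEmpty_or_nonempty (V × V × V × V) with he | he
    · exact ⟨1, one_pos, fun z => (he.false z).elim⟩
    · obtain ⟨z0, hz0⟩ := Finite.exists_min E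
      exact ⟨E z0, hE0 z0, hz0⟩
  refine ⟨ε, hε, fun q hq hright => ?_⟩
  have dj : ∀ a b c d, Disjoint (segment ℝ (p a) (p b)) (segment ℝ (p c) (p d)) →
      Disjoint (segment ℝ (q a) (q b)) (segment ℝ (q c) (q d)) := fun a b c d =>
    (hE (a, b, c, d) q (fun v => (hq v).trans_le (hle _))).1
  have cr : ∀ a b c d, Cross G p a b c d → ∃ y, y ∈ openSegment ℝ (q a) (q b) ∧ y ∈ openSegment ℝ (q c) (q d) :=
    fun a b c d => (hE (a, b, c, d) q (fun v => (hq v).trans_le (hle _))).2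
  have hinj : Function.Injective q := by
    intro a b hab
    by_contra hne
    have h1 := dj a a b b (by
      rw [segment_same, segment_same, Set.disjoint_singleton]
      exact fun e => hne (hp.draw.inj e))
    rw [segment_same, segment_same, Set.disjoint_singleton] at h1
    exact h1 hab
  have hvert : ∀ u v w, G.Adj u v → w ≠ u → w ≠ v → q w ∉ segment ℝ (q u) (q v) := by
    intro u v w h1 h2 h3
    have h4 := dj w w u v (by
      rw [segment_same, Set.disjoint_singleton_left]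
      exact hp.draw.vertex u v w h1 h2 h3)
    rw [segment_same, Set.disjoint_singleton_left] at h4
    exact h4
  have share : ∀ a b d, G.Adj a b → G.Adj a d → b ≠ d →
      (segment ℝ (q a) (q b) ∩ segment ℝ (q a) (q d)).Subsingleton := by
    intro a b d h1 h2 h3
    have h4 : ∀ x ∈ segment ℝ (q a) (q b) ∩ segment ℝ (q a) (q d), x = q a := by
      rintro x ⟨hx1, hx2⟩
      by_contra hx
      rcases seg_share hx1 hx2 hx with h | h
      · exact hvert a d b h2 h1.ne' h3 h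
      · exact hvert a b d h1 h2.ne' h3.symm h
    intro x hx y hy
    rw [h4 x hx, h4 y hy]
  have hmeet : ∀ a b c d, G.Adj a b → G.Adj c d → s(a, b) ≠ s(c, d) →
      (segment ℝ (q a) (q b) ∩ segment ℝ (q c) (q d)).Subsingleton := by
    intro a b c d h1 h2 h3
    by_cases e1 : a = c
    · subst e1
      exact share a b d h1 h2 (fun e => h3 (by rw [e]))
    by_cases e2 : a = d
    · subst e2
      rw [segment_symm ℝ (q c)]
      exact share a b c h1 h2.symm (fun e => h3 (by rw [e, Sym2.eq_swap]))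
    by_cases e3 : b = c
    · subst e3
      rw [segment_symm ℝ (q a)]
      exact share b a d h1.symm h2 (fun e => h3 (by rw [e, Sym2.eq_swap]))
    by_cases e4 : b = d
    · subst e4
      rw [segment_symm ℝ (q a), segment_symm ℝ (q c)]
      exact share b a c h1.symm h2.symm (fun e => h3 (by rw [e]))
    by_cases h4 : Disjoint (segment ℝ (p a) (p b)) (segment ℝ (p c) (p d))
    · have h5 := dj a b c d h4
      rw [Set.disjoint_iff_inter_eq_empty] at h5
      rw [h5]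
      exact Set.subsingleton_empty
    · exact perp_sub (hright a b c d (cross_of_meet hp.draw h1 h2 e1 e2 e3 e4 h4))
  have hdraw : IsDrawing G q := ⟨hinj, hvert, hmeet⟩
  have hiff : ∀ a b c d, Cross G q a b c d ↔ Cross G p a b c d := by
    intro a b c d
    constructor
    · intro h
      obtain ⟨-, -, e1, e2, e3, e4⟩ := cross_ne hdraw h
      obtain ⟨x, hx⟩ := h
      apply cross_of_meet hp.draw hx.1 hx.2.1 e1 e2 e3 e4
      intro h4
      exact Set.disjoint_left.1 (dj a b c d h4) (openSegment_subset_segment ℝ _ _ hx.2.2.2.1)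
        (openSegment_subset_segment ℝ _ _ hx.2.2.2.2)
    · intro h
      obtain ⟨y, hy1, hy2⟩ := cr a b c d h
      obtain ⟨x, hx⟩ := h
      exact ⟨y, hx.1, hx.2.1, hx.2.2.1, hy1, hy2⟩
  refine ⟨⟨hdraw, fun a b c d h => hright a b c d ((hiff a b c d).1 h), ?_⟩, hiff⟩
  intro a b c d c' d' x x' h h'
  have h1 := partner_unique hp ((hiff _ _ _ _).1 ⟨x, h⟩) ((hiff _ _ _ _).1 ⟨x', h'⟩)
  have h2 : segment ℝ (q c') (q d') = segment ℝ (q c) (q d) := by
    rw [Sym2.eq_iff] at h1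
    rcases h1 with ⟨e1, e2⟩ | ⟨e1, e2⟩
    · rw [e1, e2]
    · rw [e1, e2, segment_symm]
  have h3 := openSegment_subset_segment ℝ _ _ h'.2.2.2.2
  rw [h2] at h3
  exact hmeet a b c d h.1 h.2.1 h.2.2.1
    ⟨openSegment_subset_segment ℝ _ _ h.2.2.2.1, openSegment_subset_segment ℝ _ _ h.2.2.2.2⟩
    ⟨openSegment_subset_segment ℝ _ _ h'.2.2.2.1, h3⟩

end Pool.Agent.LibRac44
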