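import Pool.Agent.LibRac44.Convex

/-! Winding numbers of weighted cycles: the intersection number of two plane cycles is zero. -/

namespace Pool.Agent.LibRac44

open Set Filter Topology

/-- a point as a complex number -/
def cx (x : ℝ × ℝ) : ℂ := ⟨x.1, x.2⟩

lemma cx_sub_ne {A X : ℝ × ℝ} (h : A ≠ X) : cx A - cx X ≠ 0 := by
  intro h0
  apply h
  have h1 := congrArg Complex.re h0
  have h2 := congrArg Complex.im h0
  simp only [cx, Complex.sub_re, Complex.sub_im, Complex.zero_re, Complex.zero_im] at h1 h2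
  exact Prod.ext (by linarith) (by linarith)

/-- if the quotient is real, the points are on a line -/
lemma real_quot {A C X : ℝ × ℝ} (hA : A ≠ X) (h : ((cx C - cx X) / (cx A - cx X)).im = 0) :
    C.1 - X.1 = ((cx C - cx X) / (cx A - cx X)).re * (A.1 - X.1) ∧
      C.2 - X.2 = ((cx C - cx X) / (cx A - cx X)).re * (A.2 - X.2) := by
  set z := (cx C - cx X) / (cx A - cx X) with hz
  have h1 : cx C - cx X = z * (cx A - cx X) := by
    rw [hz, div_mul_cancel₀ _ (cx_sub_ne hA)]
  have h2 := congrArg Complex.re h1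
  have h3 := congrArg Complex.im h1
  rw [Complex.mul_re, h] at h2
  rw [Complex.mul_im, h] at h3
  simp only [cx, Complex.sub_re, Complex.sub_im] at h2 h3
  exact ⟨by linarith, by linarith⟩

lemma slit1 {A C X : ℝ × ℝ} (h : X ∉ segment ℝ A C) : (cx C - cx X) / (cx A - cx X) ∈ Complex.slitPlane := by
  by_contra hs
  rw [Complex.mem_slitPlane_iff] at hs
  push Not at hs
  obtain ⟨h1, h2⟩ := hs
  have hA : A ≠ X := by
    rintro rfl
    exact h (left_mem_segment ℝ _ _)
  obtain ⟨e1, e2⟩ := real_quot hA h2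
  set r := ((cx C - cx X) / (cx A - cx X)).re with hr
  have hp : 0 < 1 - r := by linarith
  apply h
  rw [mem_seg]
  refine ⟨1 / (1 - r), by positivity, ?_, ?_⟩
  · rw [div_le_one hp]
    linarith
  · refine Prod.ext ?_ ?_
    · simp only [Prod.fst_add, Prod.smul_fst, Prod.fst_sub, smul_eq_mul]
      field_simp
      linear_combination e1
    · simp only [Prod.snd_add, Prod.smul_snd, Prod.snd_sub, smul_eq_mul]
      field_simp
      linear_combination e2

lemma slit2 {A C B D x : ℝ × ℝ} (hAC : A ≠ C) (hx : x ∈ openSegment ℝ A C) (hx' : x ∈ openSegment ℝ B D)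
    (hperp : dot (C - A) (D - B) = 0) {t : ℝ} (hA : A ≠ B + t • (D - B)) :
    -((cx C - cx (B + t • (D - B))) / (cx A - cx (B + t • (D - B)))) ∈ Complex.slitPlane := by
  by_contra hs
  rw [Complex.mem_slitPlane_iff] at hs
  push Not at hs
  obtain ⟨h1, h2⟩ := hs
  rw [Complex.neg_re] at h1
  rw [Complex.neg_im, neg_eq_zero] at h2
  obtain ⟨e1, e2⟩ := real_quot hA h2
  set X := B + t • (D - B) with hX
  set r := ((cx C - cx X) / (cx A - cx X)).re with hr
  have hr0 : 0 ≤ r := by linarith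
  obtain ⟨s0, hs0, hs1, hs⟩ := mem_oseg.1 hx
  obtain ⟨t0, -, -, ht⟩ := mem_oseg.1 hx'
  -- `x` as the intersection
  have x1 : A.1 + s0 * (C.1 - A.1) = B.1 + t0 * (D.1 - B.1) := by
    have := congrArg Prod.fst (hs.trans ht.symm)
    simpa using this
  have x2 : A.2 + s0 * (C.2 - A.2) = B.2 + t0 * (D.2 - B.2) := by
    have := congrArg Prod.snd (hs.trans ht.symm)
    simpa using this
  have X1 : X.1 = B.1 + t * (D.1 - B.1) := by rw [hX]; simp
  have X2 : X.2 = B.2 + t * (D.2 - B.2) := by rw [hX]; simp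
  unfold dot at hperp
  simp only [Prod.fst_sub, Prod.snd_sub] at hperp
  -- `(C - A) = (1 - r) (X - A)`
  have f1 : C.1 - A.1 = (1 - r) * (X.1 - A.1) := by linarith
  have f2 : C.2 - A.2 = (1 - r) * (X.2 - A.2) := by linarith
  -- `X - x` is parallel to `C - A` and perpendicular to it
  have hn : 0 < (C.1 - A.1) * (C.1 - A.1) + (C.2 - A.2) * (C.2 - A.2) := by
    rcases (add_nonneg (mul_self_nonneg (C.1 - A.1)) (mul_self_nonneg (C.2 - A.2))).lt_or_eq with h | h
    · exact h
    · exfalso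
      have := dot_self_eq_zero (x := C - A) (by unfold dot; simp only [Prod.fst_sub, Prod.snd_sub]; exact h.symm)
      exact hAC (sub_eq_zero.1 this).symm
  have k1 : (C.1 - A.1) * (X.1 - A.1) + (C.2 - A.2) * (X.2 - A.2) =
      s0 * ((C.1 - A.1) * (C.1 - A.1) + (C.2 - A.2) * (C.2 - A.2)) := by
    rw [X1, X2]
    linear_combination (-(C.1 - A.1)) * x1 - (C.2 - A.2) * x2 + (t - t0) * hperp
  have k2 : (C.1 - A.1) * (C.1 - A.1) + (C.2 - A.2) * (C.2 - A.2) =
      (1 - r) * ((C.1 - A.1) * (X.1 - A.1) + (C.2 - A.2) * (X.2 - A.2)) := by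
    linear_combination (C.1 - A.1) * f1 + (C.2 - A.2) * f2
  rw [k1] at k2
  have k3 : (1 - r) * s0 = 1 := by
    apply mul_right_cancel₀ hn.ne'
    linear_combination -k2
  nlinarith

lemma log_neg_of_im_neg {z : ℂ} (h : z.im < 0) : Complex.log (-z) = Complex.log z + Real.pi * Complex.I := by
  rw [Complex.log, Complex.log, norm_neg, Complex.arg_neg_eq_arg_add_pi_of_im_neg h]
  push_cast
  ring

lemma log_neg_of_im_pos {z : ℂ} (h : 0 < z.im) : Complex.log (-z) = Complex.log z - Real.pi * Complex.I := by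
  rw [Complex.log, Complex.log, norm_neg, Complex.arg_neg_eq_arg_sub_pi_of_im_pos h]
  push_cast
  ring

lemma im_quot {A C X : ℝ × ℝ} (hA : A ≠ X) : 0 < ((A.1 - X.1) * (A.1 - X.1) + (A.2 - X.2) * (A.2 - X.2)) ∧
    ((cx C - cx X) / (cx A - cx X)).im * ((A.1 - X.1) * (A.1 - X.1) + (A.2 - X.2) * (A.2 - X.2)) =
      det2 (A - X) (C - X) := by
  have hn : 0 < (A.1 - X.1) * (A.1 - X.1) + (A.2 - X.2) * (A.2 - X.2) := by
    rcases (add_nonneg (mul_self_nonneg (A.1 - X.1)) (mul_self_nonneg (A.2 - X.2))).lt_or_eq with h | h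
    · exact h
    · exfalso
      have := dot_self_eq_zero (x := A - X) (by unfold dot; simp only [Prod.fst_sub, Prod.snd_sub]; exact h.symm)
      exact hA (sub_eq_zero.1 this)
  refine ⟨hn, ?_⟩
  set z := (cx C - cx X) / (cx A - cx X) with hz
  have h1 : cx C - cx X = z * (cx A - cx X) := by
    rw [hz, div_mul_cancel₀ _ (cx_sub_ne hA)]
  have h2 := congrArg Complex.re h1
  have h3 := congrArg Complex.im h1
  rw [Complex.mul_re] at h2
  rw [Complex.mul_im] at h3
  simp only [cx, Complex.sub_re, Complex.sub_im] at h2 h3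
  unfold det2
  simp only [Prod.fst_sub, Prod.snd_sub]
  rw [h2, h3]
  ring

section
variable {ι V : Type*} [Fintype ι] [Fintype V] [DecidableEq V]

/-- conservation at the vertices -/
lemma cons {a c : ι → V} {f : ι → ℝ}
    (hf : ∀ v, ∑ i, f i * ((if c i = v then 1 else 0) - (if a i = v then 1 else 0)) = 0) (h : V → ℂ) :
    ∑ i, (f i : ℂ) * (h (c i) - h (a i)) = 0 := by
  have h1 : ∀ i, (f i : ℂ) * (h (c i) - h (a i)) =
      ∑ v, ((f i * ((if c i = v then 1 else 0) - (if a i = v then 1 else 0)) : ℝ) : ℂ) * h v := by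
    intro i
    have h2 : ∀ v, ((f i * ((if c i = v then 1 else 0) - (if a i = v then 1 else 0)) : ℝ) : ℂ) * h v =
        (if c i = v then (f i : ℂ) * h v else 0) - (if a i = v then (f i : ℂ) * h v else 0) := by
      intro v
      split_ifs <;> push_cast <;> ring
    rw [Finset.sum_congr rfl (fun v _ => h2 v), Finset.sum_sub_distrib, Finset.sum_ite_eq, Finset.sum_ite_eq,
      if_pos (Finset.mem_univ _), if_pos (Finset.mem_univ _)]
    ring
  rw [Finset.sum_congr rfl (fun i _ => h1 i), Finset.sum_comm]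
  refine Finset.sum_eq_zero (fun v _ => ?_)
  rw [← Finset.sum_mul, ← Complex.ofReal_sum, hf v, Complex.ofReal_zero, zero_mul]

/-- the winding number up to the factor `2 π i` -/
noncomputable def wind (p : V → ℝ × ℝ) (a c : ι → V) (f : ι → ℝ) (X : ℝ × ℝ) : ℂ :=
  ∑ i, (f i : ℂ) * Complex.log ((cx (p (c i)) - cx X) / (cx (p (a i)) - cx X))

lemma hasDeriv_cx (B D : ℝ × ℝ) (t : ℝ) :
    HasDerivAt (fun s : ℝ => cx (B + s • (D - B))) (cx (D - B)) t := by
  have h1 : (fun s : ℝ => cx (B + s • (D - B))) = fun s : ℝ => cx B + (s : ℂ) * cx (D - B) := by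
    funext s
    apply Complex.ext
    · simp [cx]
    · simp [cx]
  rw [h1]
  have h2 : HasDerivAt (fun s : ℝ => (s : ℂ) * cx (D - B)) (1 * cx (D - B)) t :=
    (Complex.ofRealCLM.hasDerivAt).mul_const _
  rw [one_mul] at h2
  exact h2.const_add _

/-- the jump of the winding number at a crossing -/
theorem jump (p : V → ℝ × ℝ) (a c : ι → V) (f : ι → ℝ)
    (hf : ∀ v, ∑ i, f i * ((if c i = v then 1 else 0) - (if a i = v then 1 else 0)) = 0) (B D : ℝ × ℝ) (j : ι)
    (hdis : ∀ i, i ≠ j → Disjoint (segment ℝ (p (a i)) (p (c i))) (segment ℝ B D))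
    (ha : p (a j) ∉ segment ℝ B D) (hc : p (c j) ∉ segment ℝ B D) (hac : p (a j) ≠ p (c j))
    {x : ℝ × ℝ} (hx : x ∈ openSegment ℝ (p (a j)) (p (c j))) (hx' : x ∈ openSegment ℝ B D)
    (hperp : dot (p (c j) - p (a j)) (D - B) = 0) (hdet : 0 < det2 (p (c j) - p (a j)) (D - B)) :
    wind p a c f D - wind p a c f B = 2 * Real.pi * Complex.I * f j := by
  classical
  let X : ℝ → ℝ × ℝ := fun t => B + t • (D - B)
  have hXs : ∀ t ∈ Icc (0 : ℝ) 1, X t ∈ segment ℝ B D := fun t ht => mem_seg.2 ⟨t, ht.1, ht.2, rfl⟩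
  let z : ι → ℝ → ℂ := fun i t => (cx (p (c i)) - cx (X t)) / (cx (p (a i)) - cx (X t))
  let σ : ι → ℂ := fun i => if i = j then -1 else 1
  let Ψ : ℝ → ℂ := fun t => ∑ i, (f i : ℂ) * Complex.log (σ i * z i t)
  have hne : ∀ i, ∀ t ∈ Icc (0 : ℝ) 1, p (a i) ≠ X t ∧ p (c i) ≠ X t := by
    intro i t ht
    by_cases hij : i = j
    · subst hij
      exact ⟨fun e => ha (by rw [e]; exact hXs t ht), fun e => hc (by rw [e]; exact hXs t ht)⟩
    · have h1 := Set.disjoint_left.1 (hdis i hij)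
      exact ⟨fun e => h1 (left_mem_segment ℝ _ _) (by rw [e]; exact hXs t ht),
        fun e => h1 (right_mem_segment ℝ _ _) (by rw [e]; exact hXs t ht)⟩
  have hslit : ∀ i, ∀ t ∈ Icc (0 : ℝ) 1, σ i * z i t ∈ Complex.slitPlane := by
    intro i t ht
    by_cases hij : i = j
    · subst hij
      show (if i = i then -1 else 1) * z i t ∈ Complex.slitPlane
      rw [if_pos rfl, neg_one_mul]
      exact slit2 hac hx hx' hperp (hne i t ht).1
    · show (if i = j then -1 else 1) * z i t ∈ Complex.slitPlane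
      rw [if_neg hij, one_mul]
      exact slit1 (fun h => Set.disjoint_left.1 (hdis i hij) h (hXs t ht))
  have hder : ∀ t ∈ Icc (0 : ℝ) 1, HasDerivAt Ψ 0 t := by
    intro t ht
    have h1 : ∀ i, HasDerivAt (fun s => (f i : ℂ) * Complex.log (σ i * z i s))
        ((f i : ℂ) * (cx (D - B) * (1 / (cx (p (a i)) - cx (X t)) - 1 / (cx (p (c i)) - cx (X t))))) t := by
      intro i
      have hA := cx_sub_ne (hne i t ht).1
      have hC := cx_sub_ne (hne i t ht).2
      have hX := hasDeriv_cx B D t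
      have d1 : HasDerivAt (fun s : ℝ => cx (p (c i)) - cx (X s)) (-cx (D - B)) t := hX.const_sub _
      have d2 : HasDerivAt (fun s : ℝ => cx (p (a i)) - cx (X s)) (-cx (D - B)) t := hX.const_sub _
      have d3 := (d1.div d2 hA).const_mul (σ i)
      have d4 := (d3.clog_real (hslit i t ht)).const_mul (f i : ℂ)
      have hσ : σ i ≠ 0 := by
        show (if i = j then (-1 : ℂ) else 1) ≠ 0
        split_ifs
        · exact neg_ne_zero.2 one_ne_zero
        · exact one_ne_zero
      refine d4.congr_deriv ?_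
      congr 1
      show σ i * ((-cx (D - B) * (cx (p (a i)) - cx (X t)) - (cx (p (c i)) - cx (X t)) * -cx (D - B)) /
        (cx (p (a i)) - cx (X t)) ^ 2) / (σ i * ((cx (p (c i)) - cx (X t)) / (cx (p (a i)) - cx (X t)))) = _
      field_simp
      ring
    have h2 := HasDerivAt.fun_sum (u := Finset.univ) (fun i _ => h1 i)
    refine h2.congr_deriv ?_
    have h3 := cons hf (fun v => -(cx (D - B) * (1 / (cx (p v) - cx (X t)))))
    rw [← h3]
    refine Finset.sum_congr rfl (fun i _ => ?_)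
    ring
  have hconst : Ψ 1 = Ψ 0 := by
    refine constant_of_has_deriv_right_zero (f := Ψ) (a := 0) (b := 1) ?_ ?_ 1 ⟨zero_le_one, le_refl 1⟩
    · intro t ht
      exact (hder t ht).continuousAt.continuousWithinAt
    · intro t ht
      exact (hder t ⟨ht.1, ht.2.le⟩).hasDerivWithinAt
  have hX0 : X 0 = B := by
    show B + (0 : ℝ) • (D - B) = B
    rw [zero_smul, add_zero]
  have hX1 : X 1 = D := by
    show B + (1 : ℝ) • (D - B) = D
    rw [one_smul]
    abel
  -- signs at the ends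
  obtain ⟨s0, hs0, hs1, hs⟩ := mem_oseg.1 hx
  obtain ⟨t0, ht0, ht1, ht⟩ := mem_oseg.1 hx'
  have x1 : (p (a j)).1 + s0 * ((p (c j)).1 - (p (a j)).1) = B.1 + t0 * (D.1 - B.1) := by
    have := congrArg Prod.fst (hs.trans ht.symm)
    simpa using this
  have x2 : (p (a j)).2 + s0 * ((p (c j)).2 - (p (a j)).2) = B.2 + t0 * (D.2 - B.2) := by
    have := congrArg Prod.snd (hs.trans ht.symm)
    simpa using this
  have hA0 := (hne j 0 ⟨le_refl 0, zero_le_one⟩).1
  have hA1 := (hne j 1 ⟨zero_le_one, le_refl 1⟩).1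
  have im0 : (z j 0).im < 0 := by
    obtain ⟨g1, g2⟩ := im_quot (C := p (c j)) hA0
    have g3 : det2 (p (a j) - X 0) (p (c j) - X 0) = -(t0 * det2 (p (c j) - p (a j)) (D - B)) := by
      rw [hX0]
      unfold det2
      simp only [Prod.fst_sub, Prod.snd_sub]
      linear_combination ((p (c j)).2 - (p (a j)).2) * x1 - ((p (c j)).1 - (p (a j)).1) * x2
    rw [g3] at g2
    have g4 := mul_pos ht0 hdet
    by_contra hcon
    have g5 := mul_nonneg (not_lt.1 hcon) g1.le
    have g6 : (z j 0).im * (((p (a j)).1 - (X 0).1) * ((p (a j)).1 - (X 0).1) +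
      ((p (a j)).2 - (X 0).2) * ((p (a j)).2 - (X 0).2)) = -(t0 * det2 (p (c j) - p (a j)) (D - B)) := g2
    rw [g6] at g5
    linarith
  have im1 : 0 < (z j 1).im := by
    obtain ⟨g1, g2⟩ := im_quot (C := p (c j)) hA1
    have g3 : det2 (p (a j) - X 1) (p (c j) - X 1) = (1 - t0) * det2 (p (c j) - p (a j)) (D - B) := by
      rw [hX1]
      unfold det2
      simp only [Prod.fst_sub, Prod.snd_sub]
      linear_combination ((p (c j)).2 - (p (a j)).2) * x1 - ((p (c j)).1 - (p (a j)).1) * x2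
    rw [g3] at g2
    have g4 := mul_pos (show 0 < 1 - t0 by linarith) hdet
    by_contra hcon
    have g5 := mul_nonneg (neg_nonneg.2 (not_lt.1 hcon)) g1.le
    have g6 : (z j 1).im * (((p (a j)).1 - (X 1).1) * ((p (a j)).1 - (X 1).1) +
      ((p (a j)).2 - (X 1).2) * ((p (a j)).2 - (X 1).2)) = (1 - t0) * det2 (p (c j) - p (a j)) (D - B) := g2
    rw [neg_mul, g6] at g5
    linarith
  have hval : ∀ t : ℝ, ∀ w : ℂ, Complex.log (-z j t) = Complex.log (z j t) + w →
      Ψ t = wind p a c f (X t) + (f j : ℂ) * w := by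
    intro t w hw
    show ∑ i, (f i : ℂ) * Complex.log (σ i * z i t) = (∑ i, (f i : ℂ) * Complex.log (z i t)) + (f j : ℂ) * w
    rw [← Finset.add_sum_erase _ _ (Finset.mem_univ j), ← Finset.add_sum_erase _ _ (Finset.mem_univ j)]
    have h1 : σ j = -1 := if_pos rfl
    rw [h1, neg_one_mul, hw]
    have h2 : ∑ i ∈ Finset.univ.erase j, (f i : ℂ) * Complex.log (σ i * z i t) =
        ∑ i ∈ Finset.univ.erase j, (f i : ℂ) * Complex.log (z i t) := by
      refine Finset.sum_congr rfl (fun i hi => ?_)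
      have h3 : σ i = 1 := if_neg (Finset.mem_erase.1 hi).1
      rw [h3, one_mul]
    rw [h2]
    ring
  have v0 := hval 0 _ (log_neg_of_im_neg im0)
  have v1 := hval 1 (-(Real.pi * Complex.I)) (by rw [log_neg_of_im_pos im1]; ring)
  rw [hX0] at v0
  rw [hX1] at v1
  rw [v0, v1] at hconst
  linear_combination hconst

end

end Pool.Agent.LibRac44
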